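import Pool.Agent.H21.SD.Sum
import Pool.Graph.R_seed8.R644.SP.Fin

/-!
The bound for the critical fugacity.
-/

set_option autoImplicit false

namespace Pool.Agent.H21.SD

open scoped ENNReal
open Classical

noncomputable def mu : ℝ := Real.sqrt (2 + Real.sqrt 2)

theorem mu_eq : mu = H978R2.Hex.mu0 := rfl

theorem mu_pos : 0 < mu := by
  unfold mu; positivity

theorem nbr_eq : Nbr = H978R2.Hex.Adj := by
  funext x y
  exact propext Pool.Agent.W832.HR.nbr_iff

/-- the critical fugacity -/
noncomputable def xx : ℝ≥0∞ := ENNReal.ofReal (1 / mu)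

theorem xx_pow (k : ℕ) : xx ^ k = ENNReal.ofReal ((1 / mu) ^ k) := by
  unfold xx
  rw [ENNReal.ofReal_pow (by have := mu_pos; positivity)]

theorem S_bound : ∃ K : ℝ, 0 ≤ K ∧ ∀ (P : Finset (List V)) (N : Finset V) (d : ℕ),
    (∀ r ∈ P, r.IsChain Nbr ∧ r.Nodup ∧ r.length ≤ d ∧ ∃ u ∈ N, r.head? = some u) →
    ∑ r ∈ P, xx ^ r.length ≤
      ENNReal.ofReal (N.card * d * Real.exp (K * Real.log (d + 2) ^ 2) / mu) := by
  obtain ⟨K, hK0, hK⟩ := Pool.Agent.R644.SP.s_cn
  refine ⟨K, hK0, fun P N d hP => ?_⟩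
  have hmu := mu_pos
  have hmaps : ∀ r ∈ P, (r.headD (0, 0), r.length - 1) ∈ N ×ˢ Finset.range d := by
    intro r hr
    obtain ⟨h1, h2, h3, u, hu, h4⟩ := hP r hr
    match r, h4, h3 with
    | x :: xs, h4, h3 =>
      simp only [List.head?_cons, Option.some.injEq] at h4
      subst h4
      rw [Finset.mem_product, Finset.mem_range]
      simp only [List.headD_cons, List.length_cons] at h3 ⊢
      exact ⟨hu, by omega⟩
  rw [← Finset.sum_fiberwise_of_maps_to hmaps]
  have hin : ∀ q ∈ N ×ˢ Finset.range d,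
      ∑ r ∈ P with (r.headD (0, 0), r.length - 1) = q, xx ^ r.length ≤
        ENNReal.ofReal (Real.exp (K * Real.log (d + 2) ^ 2) / mu) := by
    rintro ⟨u, m⟩ hq
    rw [Finset.mem_product, Finset.mem_range] at hq
    simp only at hq
    have hF : ∀ r ∈ P.filter (fun r => (r.headD (0, 0), r.length - 1) = (u, m)),
        Pool.Agent.Y981.QB.IsSW u m r := by
      intro r hr
      rw [Finset.mem_filter] at hr
      obtain ⟨h1, h2, h3, u', hu', h4⟩ := hP r hr.1
      match r, h4, hr, h1, h2 with
      | x :: xs, h4, hr, h1, h2 =>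
        simp only [List.headD_cons, List.length_cons, Prod.mk.injEq, Nat.add_sub_cancel] at hr
        refine ⟨?_, ?_, ?_, h2⟩
        · rw [List.length_cons, hr.2.2]
        · rw [List.head?_cons, hr.2.1]
        · rw [← nbr_eq]; exact h1
    have hcard := hK u m _ hF
    rw [← mu_eq] at hcard
    have hsum : ∑ r ∈ P with (r.headD (0, 0), r.length - 1) = (u, m), xx ^ r.length =
        ((P.filter (fun r => (r.headD (0, 0), r.length - 1) = (u, m))).card : ℝ≥0∞) *
          xx ^ (m + 1) := by
      rw [← nsmul_eq_mul, ← Finset.sum_const]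
      refine Finset.sum_congr rfl fun r hr => ?_
      rw [(hF r hr).1]
    rw [hsum, xx_pow, ← ENNReal.ofReal_natCast, ← ENNReal.ofReal_mul (by positivity)]
    apply ENNReal.ofReal_le_ofReal
    have h5 : Real.exp (K * Real.log (m + 2) ^ 2) ≤ Real.exp (K * Real.log (d + 2) ^ 2) := by
      apply Real.exp_le_exp.2
      apply mul_le_mul_of_nonneg_left _ hK0
      have h6 : (0 : ℝ) ≤ Real.log (m + 2) := Real.log_nonneg (by
        have : (0 : ℝ) ≤ m := Nat.cast_nonneg m
        linarith)
      apply pow_le_pow_left₀ h6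
      apply Real.log_le_log (by positivity)
      have : (m : ℝ) ≤ d := by exact_mod_cast hq.2.le
      linarith
    calc ((P.filter (fun r => (r.headD (0, 0), r.length - 1) = (u, m))).card : ℝ) *
          (1 / mu) ^ (m + 1)
        ≤ (mu ^ m * Real.exp (K * Real.log (m + 2) ^ 2)) * (1 / mu) ^ (m + 1) :=
          mul_le_mul_of_nonneg_right hcard (by positivity)
      _ = Real.exp (K * Real.log (m + 2) ^ 2) / mu := by
          have h7 : (1 / mu) ^ (m + 1) = 1 / (mu ^ m * mu) := by
            rw [one_div, inv_pow, pow_succ, one_div]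
          rw [h7]
          field_simp
      _ ≤ _ := div_le_div_of_nonneg_right h5 hmu.le
  refine (Finset.sum_le_sum hin).trans ?_
  rw [Finset.sum_const, nsmul_eq_mul, Finset.card_product, Finset.card_range,
    ← ENNReal.ofReal_natCast, ← ENNReal.ofReal_mul (by positivity)]
  apply ENNReal.ofReal_le_ofReal
  push_cast
  apply le_of_eq
  ring

end Pool.Agent.H21.SD
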