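import Pool.Agent.H21.SD.Cut

/-!
A walk is determined by its runs outside a box and by the code.
-/

set_option autoImplicit false

namespace Pool.Agent.H21.SD

/-- the box -/
noncomputable def Bx (i j : ℤ) (n : ℕ) : Finset V := Finset.Ico i (i + n) ×ˢ Finset.Ico j (j + n)

theorem mem_Bx {i j : ℤ} {n : ℕ} {v : V} :
    v ∈ Bx i j n ↔ (i ≤ v.1 ∧ v.1 < i + n) ∧ (j ≤ v.2 ∧ v.2 < j + n) := by
  unfold Bx
  simp only [Finset.mem_product, Finset.mem_Ico]

/-- the key edges -/
noncomputable def Kx (i j : ℤ) (n : ℕ) : Finset (V × V) :=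
  (((Bx i j n).filter (fun v => Even (v.1 + v.2))).image (fun v => (v, ((v.1, v.2 + 1) : V)))) ∪
  (((Finset.Ico j (j + n)).image (fun y => (((i - 1, y) : V), ((i, y) : V)))) ∪
  ((Finset.Ico i (i + n)).image (fun x => (((x, j - 1) : V), ((x, j) : V)))))

/-- the code -/
noncomputable def code (i j : ℤ) (n : ℕ) (l : List V) : Finset (V × V) :=
  (Kx i j n).filter (fun d => Odd (c l d.1 d.2))

theorem code_e {i j : ℤ} {n : ℕ} {l l' : List V} (h : code i j n l = code i j n l') (d : V × V)
    (hd : d ∈ Kx i j n) : e l d.1 d.2 = e l' d.1 d.2 := by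
  have h1 : Odd (c l d.1 d.2) ↔ Odd (c l' d.1 d.2) := by
    have h2 : d ∈ code i j n l ↔ d ∈ code i j n l' := by rw [h]
    unfold code at h2
    simpa [hd] using h2
  unfold e
  by_cases ho : Odd (c l d.1 d.2)
  · rw [ZMod.natCast_eq_one_iff_odd.2 ho, ZMod.natCast_eq_one_iff_odd.2 (h1.1 ho)]
  · have ho' : ¬ Odd (c l' d.1 d.2) := fun h' => ho (h1.2 h')
    rw [Nat.not_odd_iff_even] at ho ho'
    rw [ZMod.natCast_eq_zero_iff_even.2 ho, ZMod.natCast_eq_zero_iff_even.2 ho']

section det

variable {i j : ℤ} {n : ℕ} {l l' : List V}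
  (hK : ∀ d ∈ Kx i j n, e l d.1 d.2 = e l' d.1 d.2)

include hK

theorem det_U (v : V) (hv : v ∈ Bx i j n) : e l v (U v) = e l' v (U v) := by
  obtain ⟨x, y⟩ := v
  have hv' := mem_Bx.1 hv
  simp only at hv'
  unfold U
  by_cases he : Even (x + y)
  · rw [if_pos he]
    refine hK (((x, y) : V), ((x, y + 1) : V)) ?_
    unfold Kx
    apply Finset.mem_union_left
    rw [Finset.mem_image]
    exact ⟨(x, y), Finset.mem_filter.2 ⟨hv, he⟩, rfl⟩
  · rw [if_neg he]
    by_cases hy : y = j
    · subst hy
      rw [e_symm l, e_symm l']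
      refine hK (((x, y - 1) : V), ((x, y) : V)) ?_
      unfold Kx
      apply Finset.mem_union_right
      apply Finset.mem_union_right
      rw [Finset.mem_image]
      exact ⟨x, Finset.mem_Ico.2 hv'.1, rfl⟩
    · rw [e_symm l, e_symm l']
      refine hK (((x, y - 1) : V), ((x, y) : V)) ?_
      unfold Kx
      apply Finset.mem_union_left
      rw [Finset.mem_image]
      refine ⟨(x, y - 1), Finset.mem_filter.2 ⟨mem_Bx.2 ⟨hv'.1, ?_⟩, ?_⟩, ?_⟩
      · simp only
        omega
      · simp only
        rw [Int.even_iff] at he ⊢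
        omega
      · simp

theorem det_R {a b : V} (hl : l.IsChain Nbr) (ha : l.head? = some a) (hb : l.getLast? = some b)
    (hl' : l'.IsChain Nbr) (ha' : l'.head? = some a) (hb' : l'.getLast? = some b) (y : ℤ)
    (hy : j ≤ y ∧ y < j + n) : ∀ k : ℕ, k ≤ n →
    e l (i - 1 + k, y) (R (i - 1 + k, y)) = e l' (i - 1 + k, y) (R (i - 1 + k, y)) := by
  intro k
  induction k with
  | zero =>
    intro _
    have : R (i - 1 + ((0 : ℕ) : ℤ), y) = (i, y) := by
      unfold R; simp
    rw [this]
    have e1 : ((i - 1 + ((0 : ℕ) : ℤ), y) : V) = (i - 1, y) := by simp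
    rw [e1]
    refine hK (((i - 1, y) : V), ((i, y) : V)) ?_
    unfold Kx
    apply Finset.mem_union_right
    apply Finset.mem_union_left
    rw [Finset.mem_image]
    exact ⟨y, Finset.mem_Ico.2 hy, rfl⟩
  | succ k ih =>
    intro hk
    have ih' := ih (by omega)
    set v : V := (i - 1 + ((k + 1 : ℕ) : ℤ), y) with hv
    have hL : L v = (i - 1 + (k : ℤ), y) := by
      unfold L; rw [hv]; push_cast; simp only [Prod.mk.injEq, and_true]; ring
    have hR : R (i - 1 + (k : ℤ), y) = v := by
      unfold R; rw [hv]; push_cast; simp only [Prod.mk.injEq, and_true]; ring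
    have h1 := parity l a b hl ha hb v
    have h2 := parity l' a b hl' ha' hb' v
    have h3 : e l v (U v) = e l' v (U v) := by
      apply det_U hK
      rw [mem_Bx, hv]
      push_cast
      constructor
      · constructor <;> omega
      · exact hy
    have h4 : e l v (L v) = e l' v (L v) := by
      rw [hL, e_symm l, e_symm l', ← hR]
      exact ih'
    linear_combination h1 - h2 - h3 - h4

theorem det_all {a b : V} (hl : l.IsChain Nbr) (ha : l.head? = some a)
    (hb : l.getLast? = some b) (hl' : l'.IsChain Nbr) (ha' : l'.head? = some a)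
    (hb' : l'.getLast? = some b) (v w : V) (hv : v ∈ Bx i j n) (hvw : Nbr v w) :
    e l v w = e l' v w := by
  have hv' := mem_Bx.1 hv
  rcases (nbr_iff v w).1 hvw with rfl | rfl | rfl
  · have h1 := det_R hK hl ha hb hl' ha' hb' v.2 hv'.2 (v.1 - i + 1).toNat (by omega)
    have h2 : ((i - 1 + (((v.1 - i + 1).toNat : ℕ) : ℤ), v.2) : V) = v := by
      obtain ⟨x, y⟩ := v
      simp only at hv' ⊢
      simp only [Prod.mk.injEq, and_true]
      omega
    rw [h2] at h1
    exact h1
  · have h1 := det_R hK hl ha hb hl' ha' hb' v.2 hv'.2 (v.1 - i).toNat (by omega)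
    have h2 : ((i - 1 + (((v.1 - i).toNat : ℕ) : ℤ), v.2) : V) = L v := by
      obtain ⟨x, y⟩ := v
      unfold L
      simp only at hv' ⊢
      simp only [Prod.mk.injEq, and_true]
      omega
    have h3 : R (L v) = v := by
      unfold R L
      simp
    rw [h2, h3] at h1
    rw [e_symm l, e_symm l']
    exact h1
  · exact det_U hK v hv

end det

theorem c_of_e {l l' : List V} (hn : l.Nodup) (hn' : l'.Nodup) {v w : V}
    (h : e l v w = e l' v w) : c l v w = c l' v w := by
  have h1 := c_le_one l v w hn
  have h2 := c_le_one l' v w hn'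
  unfold e at h
  have h3 : (c l v w = 0 ∨ c l v w = 1) := by omega
  have h4 : (c l' v w = 0 ∨ c l' v w = 1) := by omega
  rcases h3 with h3 | h3 <;> rcases h4 with h4 | h4
  · rw [h3, h4]
  · rw [h3, h4] at h
    exact absurd h (by decide)
  · rw [h3, h4] at h
    exact absurd h (by decide)
  · rw [h3, h4]

theorem inj {i j : ℤ} {n : ℕ} {l l' : List V} {a b : V} (hl : l.IsChain Nbr)
    (ha : l.head? = some a) (hb : l.getLast? = some b) (hn : l.Nodup) (hl' : l'.IsChain Nbr)
    (ha' : l'.head? = some a) (hb' : l'.getLast? = some b) (hn' : l'.Nodup)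
    (ho : outs (Bx i j n) l = outs (Bx i j n) l') (hc : code i j n l = code i j n l') :
    l = l' := by
  apply uniq l l' hn hn' (by rw [ha, ha'])
  have key : ∀ v w, v ∈ Bx i j n → c l v w = c l' v w := by
    intro v w hv
    by_cases hvw : Nbr v w
    · exact c_of_e hn hn' (det_all (code_e hc) hl ha hb hl' ha' hb' v w hv hvw)
    · have h1 : c l v w = 0 := by
        by_contra h
        rcases nbr_of_c l v w hl h with h | h
        · exact hvw h
        · exact hvw (nbr_symm h)
      have h2 : c l' v w = 0 := by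
        by_contra h
        rcases nbr_of_c l' v w hl' h with h | h
        · exact hvw h
        · exact hvw (nbr_symm h)
      rw [h1, h2]
  intro v w
  by_cases hv : v ∈ Bx i j n
  · exact key v w hv
  · by_cases hw : w ∈ Bx i j n
    · rw [c_symm l, c_symm l']
      exact key w v hw
    · rw [outs_sum v w hv hw l, outs_sum v w hv hw l', ho]

theorem card_row (i y : ℤ) (n : ℕ) :
    ((Finset.Ico i (i + n)).filter (fun x => Even (x + y))).card ≤ (n + 1) / 2 := by
  have : ((Finset.Ico i (i + n)).filter (fun x => Even (x + y))).card ≤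
      (Finset.range ((n + 1) / 2)).card := by
    apply Finset.card_le_card_of_injOn (fun x => ((x - i) / 2).toNat)
    · intro x hx
      simp only [Finset.coe_filter, Finset.mem_Ico, Set.mem_ofPred_eq] at hx
      simp only [Finset.coe_range, Set.mem_Iio]
      omega
    · intro x hx x' hx' h
      simp only [Finset.coe_filter, Finset.mem_Ico, Set.mem_ofPred_eq, Int.even_iff] at hx hx'
      simp only at h
      omega
  simpa using this

theorem card_K (i j : ℤ) (n : ℕ) : (Kx i j n).card ≤ n * ((n + 1) / 2) + 2 * n := by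
  unfold Kx
  refine (Finset.card_union_le _ _).trans ?_
  have h1 : ((Finset.Ico j (j + n)).image (fun y => (((i - 1, y) : V), ((i, y) : V)))).card ≤ n := by
    refine Finset.card_image_le.trans ?_
    simp
  have h2 : ((Finset.Ico i (i + n)).image (fun x => (((x, j - 1) : V), ((x, j) : V)))).card ≤ n := by
    refine Finset.card_image_le.trans ?_
    simp
  have h3 := Finset.card_union_le
    ((Finset.Ico j (j + n)).image (fun y => (((i - 1, y) : V), ((i, y) : V))))
    ((Finset.Ico i (i + n)).image (fun x => (((x, j - 1) : V), ((x, j) : V))))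
  have h4 : (((Bx i j n).filter (fun v => Even (v.1 + v.2))).image
      (fun v => (v, ((v.1, v.2 + 1) : V)))).card ≤ n * ((n + 1) / 2) := by
    refine Finset.card_image_le.trans ?_
    have hsub : (Bx i j n).filter (fun v => Even (v.1 + v.2)) ⊆
        (Finset.Ico j (j + n)).biUnion (fun y =>
          ((Finset.Ico i (i + n)).filter (fun x => Even (x + y))).image (fun x => ((x, y) : V))) := by
      intro v hv
      rw [Finset.mem_filter, mem_Bx] at hv
      rw [Finset.mem_biUnion]
      refine ⟨v.2, Finset.mem_Ico.2 hv.1.2, ?_⟩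
      rw [Finset.mem_image]
      exact ⟨v.1, Finset.mem_filter.2 ⟨Finset.mem_Ico.2 hv.1.1, hv.2⟩, rfl⟩
    refine (Finset.card_le_card hsub).trans ?_
    refine (Finset.card_biUnion_le_card_mul _ _ ((n + 1) / 2) ?_).trans ?_
    · intro y _
      exact Finset.card_image_le.trans (card_row i y n)
    · simp
  omega

end Pool.Agent.H21.SD
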