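import Mathlib

/-!
Local density of self-avoiding walks on the honeycomb lattice: a walk is determined by its runs
outside a box and by its vertical edges in the box (and the edges across two sides of the box).
-/

set_option autoImplicit false

namespace Pool.Agent.H21.SD

abbrev V := ℤ × ℤ

/-- Adjacency in the honeycomb lattice (brick-wall coordinates). -/
def Nbr (p q : V) : Prop :=
  (p.2 = q.2 ∧ (p.1 - q.1 = 1 ∨ q.1 - p.1 = 1)) ∨
    (p.1 = q.1 ∧ ((q.2 = p.2 + 1 ∧ Even (p.1 + p.2)) ∨ (p.2 = q.2 + 1 ∧ Even (q.1 + q.2))))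

/-- the number of times that `v, w` or `w, v` are consecutive -/
def c : List V → V → V → ℕ
  | [], _, _ => 0
  | [_], _, _ => 0
  | p :: q :: l, v, w => (if (p = v ∧ q = w) ∨ (p = w ∧ q = v) then 1 else 0) + c (q :: l) v w

theorem c_symm : ∀ (l : List V) (v w : V), c l v w = c l w v
  | [], _, _ => rfl
  | [_], _, _ => rfl
  | p :: q :: l, v, w => by
    rw [c, c, c_symm (q :: l) v w]
    congr 1
    by_cases h : (p = v ∧ q = w) ∨ (p = w ∧ q = v)
    · rw [if_pos h, if_pos h.symm]
    · rw [if_neg h, if_neg (fun h' => h h'.symm)]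

theorem mem_of_c : ∀ (l : List V) (v w : V), c l v w ≠ 0 → v ∈ l ∧ w ∈ l
  | [], _, _, h => absurd rfl h
  | [_], _, _, h => absurd rfl h
  | p :: q :: l, v, w, h => by
    rw [c] at h
    by_cases h1 : (p = v ∧ q = w) ∨ (p = w ∧ q = v)
    · rcases h1 with ⟨rfl, rfl⟩ | ⟨rfl, rfl⟩ <;> simp
    · rw [if_neg h1, zero_add] at h
      obtain ⟨h2, h3⟩ := mem_of_c (q :: l) v w h
      exact ⟨List.mem_cons_of_mem _ h2, List.mem_cons_of_mem _ h3⟩

theorem nbr_of_c : ∀ (l : List V) (v w : V), l.IsChain Nbr → c l v w ≠ 0 → Nbr v w ∨ Nbr w v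
  | [], _, _, _, h => absurd rfl h
  | [_], _, _, _, h => absurd rfl h
  | p :: q :: l, v, w, hc, h => by
    rw [c] at h
    rw [List.isChain_cons_cons] at hc
    by_cases h1 : (p = v ∧ q = w) ∨ (p = w ∧ q = v)
    · rcases h1 with ⟨rfl, rfl⟩ | ⟨rfl, rfl⟩
      · exact Or.inl hc.1
      · exact Or.inr hc.1
    · rw [if_neg h1, zero_add] at h
      exact nbr_of_c (q :: l) v w hc.2 h

theorem c_le_one : ∀ (l : List V) (v w : V), l.Nodup → c l v w ≤ 1
  | [], _, _, _ => by simp [c]
  | [_], _, _, _ => by simp [c]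
  | p :: q :: l, v, w, h => by
    rw [c]
    rw [List.nodup_cons] at h
    by_cases h1 : (p = v ∧ q = w) ∨ (p = w ∧ q = v)
    · have h2 : c (q :: l) v w = 0 := by
        by_contra h3
        obtain ⟨h4, h5⟩ := mem_of_c _ _ _ h3
        rcases h1 with ⟨rfl, rfl⟩ | ⟨rfl, rfl⟩
        · exact h.1 h4
        · exact h.1 h5
      rw [if_pos h1, h2]
    · rw [if_neg h1, zero_add]
      exact c_le_one _ _ _ h.2

theorem uniq : ∀ (l l' : List V), l.Nodup → l'.Nodup → l.head? = l'.head? →
    (∀ v w, c l v w = c l' v w) → l = l'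
  | [], [], _, _, _, _ => rfl
  | [], _ :: _, _, _, h, _ => by simp at h
  | _ :: _, [], _, _, h, _ => by simp at h
  | [p], [p'], _, _, h, _ => by simp at h; rw [h]
  | [p], p' :: q' :: l', _, _, h, hc => by
    have := hc p' q'
    simp [c] at this
    omega
  | p :: q :: l, [p'], _, _, h, hc => by
    have := hc p q
    simp [c] at this
  | p :: q :: l, p' :: q' :: l', hn, hn', h, hc => by
    simp only [List.head?_cons, Option.some.injEq] at h
    subst h
    have hpq : p ≠ q := by
      intro e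
      rw [List.nodup_cons] at hn
      exact hn.1 (by rw [e]; simp)
    have h1 : c (p :: q' :: l') p q ≠ 0 := by
      rw [← hc p q]
      simp [c]
    have h2 : q' = q := by
      rw [c] at h1
      by_cases h3 : (p = p ∧ q' = q) ∨ (p = q ∧ q' = p)
      · rcases h3 with ⟨_, h3⟩ | ⟨h3, _⟩
        · exact h3
        · exact absurd h3 hpq
      · rw [if_neg h3, zero_add] at h1
        rw [List.nodup_cons] at hn'
        exact absurd (mem_of_c _ _ _ h1).1 hn'.1
    subst h2
    have h4 := uniq (q' :: l) (q' :: l') (List.nodup_cons.1 hn).2 (List.nodup_cons.1 hn').2 rfl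
      (fun v w => by
        have := hc v w
        rw [c, c] at this
        omega)
    rw [h4]

def R (v : V) : V := (v.1 + 1, v.2)
def L (v : V) : V := (v.1 - 1, v.2)
def U (v : V) : V := if Even (v.1 + v.2) then (v.1, v.2 + 1) else (v.1, v.2 - 1)

theorem nbr_iff (p q : V) : Nbr p q ↔ q = R p ∨ q = L p ∨ q = U p := by
  obtain ⟨a, b⟩ := p
  obtain ⟨x, y⟩ := q
  unfold Nbr R L U
  simp only [Prod.mk.injEq]
  by_cases h : Even (a + b)
  · rw [if_pos h]
    simp only [Prod.mk.injEq, Int.even_iff] at h ⊢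
    omega
  · rw [if_neg h]
    simp only [Prod.mk.injEq, Int.even_iff] at h ⊢
    omega

theorem nbr_symm {p q : V} (h : Nbr p q) : Nbr q p := by
  obtain ⟨a, b⟩ := p
  obtain ⟨x, y⟩ := q
  unfold Nbr at h ⊢
  simp only [Int.even_iff] at h ⊢
  omega

theorem R_ne_L (v : V) : R v ≠ L v := by
  unfold R L; simp only [ne_eq, Prod.mk.injEq]; omega
theorem R_ne_U (v : V) : R v ≠ U v := by
  unfold R U; split_ifs <;> simp only [ne_eq, Prod.mk.injEq] <;> omega
theorem L_ne_U (v : V) : L v ≠ U v := by
  unfold L U; split_ifs <;> simp only [ne_eq, Prod.mk.injEq] <;> omega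
theorem ne_of_nbr {p q : V} (h : Nbr p q) : p ≠ q := by
  rintro rfl
  obtain ⟨a, b⟩ := p
  unfold Nbr at h
  simp only at h
  omega

/-- the parity of the number of times -/
def e (l : List V) (v w : V) : ZMod 2 := (c l v w : ZMod 2)

theorem e_symm (l : List V) (v w : V) : e l v w = e l w v := by
  unfold e; rw [c_symm]

def ind (p v : V) : ZMod 2 := if p = v then 1 else 0

theorem two_eq (z : ZMod 2) : z + z = 0 := CharTwo.add_self_eq_zero z

theorem m_sum (p q v : V) (h : Nbr p q) :
    (if (p = v ∧ q = R v) ∨ (p = R v ∧ q = v) then (1 : ZMod 2) else 0) +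
      (if (p = v ∧ q = L v) ∨ (p = L v ∧ q = v) then (1 : ZMod 2) else 0) +
      (if (p = v ∧ q = U v) ∨ (p = U v ∧ q = v) then (1 : ZMod 2) else 0) = ind p v + ind q v := by
  have hpq := ne_of_nbr h
  have h1 := R_ne_L v
  have h2 := R_ne_U v
  have h3 := L_ne_U v
  unfold ind
  by_cases hp : p = v
  · subst hp
    have hq : q ≠ p := fun e => hpq e.symm
    rw [if_pos rfl, if_neg hq]
    rcases (nbr_iff p q).1 h with e | e | e
    · rw [if_pos (Or.inl ⟨rfl, e⟩), if_neg, if_neg]
      · ring
      · rintro (⟨_, h'⟩ | ⟨_, h'⟩)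
        · exact h2 (e.symm.trans h')
        · exact hq h'
      · rintro (⟨_, h'⟩ | ⟨_, h'⟩)
        · exact h1 (e.symm.trans h')
        · exact hq h'
    · rw [if_neg, if_pos (Or.inl ⟨rfl, e⟩), if_neg]
      · ring
      · rintro (⟨_, h'⟩ | ⟨_, h'⟩)
        · exact h3 (e.symm.trans h')
        · exact hq h'
      · rintro (⟨_, h'⟩ | ⟨_, h'⟩)
        · exact h1 (h'.symm.trans e)
        · exact hq h'
    · rw [if_neg, if_neg, if_pos (Or.inl ⟨rfl, e⟩)]
      · ring
      · rintro (⟨_, h'⟩ | ⟨_, h'⟩)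
        · exact h3 (h'.symm.trans e)
        · exact hq h'
      · rintro (⟨_, h'⟩ | ⟨_, h'⟩)
        · exact h2 (h'.symm.trans e)
        · exact hq h'
  · by_cases hq : q = v
    · subst hq
      rw [if_neg hp, if_pos rfl]
      rcases (nbr_iff q p).1 (nbr_symm h) with e | e | e
      · rw [if_pos (Or.inr ⟨e, rfl⟩), if_neg, if_neg]
        · ring
        · rintro (⟨h', _⟩ | ⟨h', _⟩)
          · exact hp h'
          · exact h2 (e.symm.trans h')
        · rintro (⟨h', _⟩ | ⟨h', _⟩)
          · exact hp h'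
          · exact h1 (e.symm.trans h')
      · rw [if_neg, if_pos (Or.inr ⟨e, rfl⟩), if_neg]
        · ring
        · rintro (⟨h', _⟩ | ⟨h', _⟩)
          · exact hp h'
          · exact h3 (e.symm.trans h')
        · rintro (⟨h', _⟩ | ⟨h', _⟩)
          · exact hp h'
          · exact h1 (h'.symm.trans e)
      · rw [if_neg, if_neg, if_pos (Or.inr ⟨e, rfl⟩)]
        · ring
        · rintro (⟨h', _⟩ | ⟨h', _⟩)
          · exact hp h'
          · exact h3 (h'.symm.trans e)
        · rintro (⟨h', _⟩ | ⟨h', _⟩)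
          · exact hp h'
          · exact h2 (h'.symm.trans e)
    · rw [if_neg hp, if_neg hq, if_neg, if_neg, if_neg]
      · ring
      all_goals
        rintro (⟨h', _⟩ | ⟨_, h'⟩)
        · exact hp h'
        · exact hq h'

theorem parity : ∀ (l : List V) (a b : V), l.IsChain Nbr → l.head? = some a →
    l.getLast? = some b → ∀ v : V,
      e l v (R v) + e l v (L v) + e l v (U v) = ind a v + ind b v
  | [], a, b, _, h, _, _ => by simp at h
  | [p], a, b, _, h, h', v => by
    simp only [List.head?_cons, Option.some.injEq] at h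
    simp only [List.getLast?_singleton, Option.some.injEq] at h'
    subst h
    subst h'
    unfold e
    simp only [c, Nat.cast_zero, add_zero]
    exact (two_eq _).symm
  | p :: q :: l, a, b, hc, h, h', v => by
    rw [List.isChain_cons_cons] at hc
    simp only [List.head?_cons, Option.some.injEq] at h
    subst h
    rw [List.getLast?_cons_cons] at h'
    have ih := parity (q :: l) q b hc.2 rfl h' v
    have hm := m_sum p q v hc.1
    unfold e at ih ⊢
    rw [c, c, c]
    push_cast
    have hz := two_eq (ind q v)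
    linear_combination ih + hm + hz

end Pool.Agent.H21.SD
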