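import Pool.Agent.H21.SD.Core

/-!
The runs of a walk outside a finite set.
-/

set_option autoImplicit false

namespace Pool.Agent.H21.SD

variable (B : Finset V)

def cp : List V → List V × List (List V)
  | [] => ([], [])
  | x :: xs => if x ∈ B then ([], (cp xs).1 :: (cp xs).2) else (x :: (cp xs).1, (cp xs).2)

def outs (l : List V) : List (List V) := ((cp B l).1 :: (cp B l).2).filter (fun r => r ≠ [])

variable {B}

theorem cp_in {x : V} (hx : x ∈ B) (xs : List V) :
    cp B (x :: xs) = ([], (cp B xs).1 :: (cp B xs).2) := by
  rw [cp, if_pos hx]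

theorem cp_out {x : V} (hx : x ∉ B) (xs : List V) :
    cp B (x :: xs) = (x :: (cp B xs).1, (cp B xs).2) := by
  rw [cp, if_neg hx]

theorem cp_sum (v w : V) (hv : v ∉ B) (hw : w ∉ B) : ∀ l : List V,
    c l v w = c (cp B l).1 v w + ((cp B l).2.map (fun r => c r v w)).sum
  | [] => by simp [cp, c]
  | [x] => by
    by_cases hx : x ∈ B
    · rw [cp_in hx]; simp [cp, c]
    · rw [cp_out hx]; simp [cp, c]
  | x :: y :: l => by
    have ih := cp_sum v w hv hw (y :: l)
    rw [c]
    by_cases hx : x ∈ B
    · have hm : ¬ ((x = v ∧ y = w) ∨ (x = w ∧ y = v)) := by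
        rintro (⟨rfl, _⟩ | ⟨rfl, _⟩)
        · exact hv hx
        · exact hw hx
      rw [if_neg hm, cp_in hx, ih]
      simp [c]
    · by_cases hy : y ∈ B
      · have hm : ¬ ((x = v ∧ y = w) ∨ (x = w ∧ y = v)) := by
          rintro (⟨_, rfl⟩ | ⟨_, rfl⟩)
          · exact hw hy
          · exact hv hy
        rw [if_neg hm, cp_out hx, ih, cp_in hy]
        simp [c]
      · rw [cp_out hx, ih, cp_out hy]
        simp only [c]
        ring

theorem outs_sum (v w : V) (hv : v ∉ B) (hw : w ∉ B) (l : List V) :
    c l v w = ((outs B l).map (fun r => c r v w)).sum := by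
  rw [cp_sum v w hv hw l]
  have key : ∀ M : List (List V), (M.map (fun r => c r v w)).sum =
      ((M.filter (fun r => r ≠ [])).map (fun r => c r v w)).sum := by
    intro M
    induction M with
    | nil => simp
    | cons r M ih =>
      by_cases hr : r = []
      · subst hr
        simp only [List.map_cons, List.sum_cons, c, zero_add]
        rw [ih]
        congr 1
      · rw [List.filter_cons_of_pos (by simpa using hr)]
        simp only [List.map_cons, List.sum_cons]
        rw [ih]
  unfold outs
  rw [← key]
  simp

theorem cp_length : ∀ l : List V, l.length = (l.filter (fun v => v ∈ B)).length +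
    ((cp B l).1.length + ((cp B l).2.map List.length).sum)
  | [] => by simp [cp]
  | x :: xs => by
    have ih := cp_length xs
    by_cases hx : x ∈ B
    · rw [cp_in hx, List.filter_cons_of_pos (by simpa using hx)]
      simp only [List.length_cons, List.length_nil, List.map_cons, List.sum_cons]
      omega
    · rw [cp_out hx, List.filter_cons_of_neg (by simpa using hx)]
      simp only [List.length_cons]
      omega

theorem outs_length (l : List V) : l.length = (l.filter (fun v => v ∈ B)).length +
    ((outs B l).map List.length).sum := by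
  rw [cp_length (B := B) l]
  have key : ∀ M : List (List V), (M.map List.length).sum =
      ((M.filter (fun r => r ≠ [])).map List.length).sum := by
    intro M
    induction M with
    | nil => simp
    | cons r M ih =>
      by_cases hr : r = []
      · subst hr
        simp only [List.map_cons, List.sum_cons, List.length_nil, zero_add]
        rw [ih]
        congr 1
      · rw [List.filter_cons_of_pos (by simpa using hr)]
        simp only [List.map_cons, List.sum_cons]
        rw [ih]
  unfold outs
  rw [← key]
  simp

theorem cp_prefix : ∀ l : List V, (cp B l).1 <+: l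
  | [] => by simp [cp]
  | x :: xs => by
    by_cases hx : x ∈ B
    · rw [cp_in hx]; exact List.nil_prefix
    · rw [cp_out hx]
      exact (List.prefix_cons_inj x).2 (cp_prefix xs)

theorem cp_infix : ∀ (l : List V) (r : List V), r ∈ (cp B l).2 → r <:+: l
  | [], r, h => by simp [cp] at h
  | x :: xs, r, h => by
    by_cases hx : x ∈ B
    · rw [cp_in hx] at h
      rcases List.mem_cons.1 h with rfl | h
      · exact (cp_prefix xs).isInfix.trans (List.suffix_cons x xs).isInfix
      · exact (cp_infix xs r h).trans (List.suffix_cons x xs).isInfix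
    · rw [cp_out hx] at h
      exact (cp_infix xs r h).trans (List.suffix_cons x xs).isInfix

theorem cp_head : ∀ (l : List V) (r : List V), l.IsChain Nbr → r ∈ (cp B l).2 → ∀ u,
    r.head? = some u → ∃ z ∈ B, Nbr z u
  | [], r, _, h, _, _ => by simp [cp] at h
  | x :: xs, r, hc, h, u, hu => by
    have hc' : xs.IsChain Nbr := hc.tail
    by_cases hx : x ∈ B
    · rw [cp_in hx] at h
      rcases List.mem_cons.1 h with rfl | h
      · have h1 := cp_prefix (B := B) xs
        have h2 : xs.head? = some u := by
          obtain ⟨t, ht⟩ := h1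
          rw [← ht, List.head?_append, hu]
          rfl
        match xs, h2 with
        | y :: ys, h2 =>
          simp only [List.head?_cons, Option.some.injEq] at h2
          subst h2
          exact ⟨x, hx, (List.isChain_cons_cons.1 hc).1⟩
      · exact cp_head xs r hc' h u hu
    · rw [cp_out hx] at h
      exact cp_head xs r hc' h u hu

theorem cp_not_mem : ∀ (l : List V), (∀ v ∈ (cp B l).1, v ∉ B) ∧
    ∀ r ∈ (cp B l).2, ∀ v ∈ r, v ∉ B
  | [] => by simp [cp]
  | x :: xs => by
    obtain ⟨h1, h2⟩ := cp_not_mem xs
    by_cases hx : x ∈ B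
    · rw [cp_in hx]
      refine ⟨by simp, ?_⟩
      intro r hr
      rcases List.mem_cons.1 hr with rfl | hr
      · exact h1
      · exact h2 r hr
    · rw [cp_out hx]
      refine ⟨?_, h2⟩
      intro v hv
      rcases List.mem_cons.1 hv with rfl | hv
      · exact hx
      · exact h1 v hv

theorem cp_flatten : ∀ l : List V,
    ((cp B l).1 :: (cp B l).2).flatten = l.filter (fun v => v ∉ B)
  | [] => by simp [cp]
  | x :: xs => by
    have ih := cp_flatten xs
    by_cases hx : x ∈ B
    · rw [cp_in hx, List.filter_cons_of_neg (by simpa using hx), ← ih]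
      simp
    · rw [cp_out hx, List.filter_cons_of_pos (by simpa using hx), ← ih]
      simp

theorem outs_mem {l : List V} (hc : l.IsChain Nbr) {r : List V} (hr : r ∈ outs B l) :
    r ≠ [] ∧ r <:+: l ∧ (∀ v ∈ r, v ∉ B) ∧
      ∀ u, r.head? = some u → l.head? = some u ∨ ∃ z ∈ B, Nbr z u := by
  unfold outs at hr
  rw [List.mem_filter] at hr
  obtain ⟨h1, h2⟩ := hr
  have h2' : r ≠ [] := by simpa using h2
  obtain ⟨h3, h4⟩ := cp_not_mem (B := B) l
  rcases List.mem_cons.1 h1 with rfl | h1
  · refine ⟨h2', (cp_prefix l).isInfix, h3, fun u hu => Or.inl ?_⟩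
    obtain ⟨t, ht⟩ := cp_prefix (B := B) l
    rw [← ht, List.head?_append, hu]
    rfl
  · exact ⟨h2', cp_infix l r h1, h4 r h1, fun u hu => Or.inr (cp_head l r hc h1 u hu)⟩

theorem outs_count {l : List V} (hc : l.IsChain Nbr) (hn : l.Nodup) (N : Finset V)
    (hN : ∀ u, u ∉ B → (l.head? = some u ∨ ∃ z ∈ B, Nbr z u) → u ∈ N) :
    (outs B l).length ≤ N.card := by
  classical
  have hfl : ((cp B l).1 :: (cp B l).2).flatten.Nodup := by
    rw [cp_flatten]
    exact hn.filter _
  rw [List.nodup_flatten] at hfl
  have hpd : (outs B l).Pairwise List.Disjoint := by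
    unfold outs
    exact hfl.2.filter _
  have hne : ∀ r ∈ outs B l, r ≠ [] := fun r hr => (outs_mem hc hr).1
  have hnd : ((outs B l).map (fun r => r.headD (0, 0))).Nodup := by
    rw [List.Nodup, List.pairwise_map]
    refine hpd.imp_of_mem ?_
    intro r s hr hs hd heq
    obtain ⟨x, xs, rfl⟩ := List.exists_cons_of_ne_nil (hne r hr)
    obtain ⟨y, ys, rfl⟩ := List.exists_cons_of_ne_nil (hne s hs)
    simp only [List.headD_cons] at heq
    subst heq
    exact hd (List.mem_cons_self) (List.mem_cons_self)
  calc (outs B l).length = ((outs B l).map (fun r => r.headD (0, 0))).length := by simp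
    _ = ((outs B l).map (fun r => r.headD (0, 0))).toFinset.card :=
        (List.toFinset_card_of_nodup hnd).symm
    _ ≤ N.card := by
      apply Finset.card_le_card
      intro u hu
      rw [List.mem_toFinset, List.mem_map] at hu
      obtain ⟨r, hr, rfl⟩ := hu
      obtain ⟨x, xs, rfl⟩ := List.exists_cons_of_ne_nil (hne r hr)
      exact hN _ ((outs_mem hc hr).2.2.1 x (List.mem_cons_self)) ((outs_mem hc hr).2.2.2 x rfl)

end Pool.Agent.H21.SD
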