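import Pool.Agent.H21.SD.Fin
import Pool.Graph.R_seed8.W832.HR.Cont2

/-!
The domain version.
-/

set_option autoImplicit false

namespace Pool.Agent.H21.SD

open scoped ENNReal
open Classical

/-- The critical partition function. -/
noncomputable def Z (D : Set V) (a b : V) : ℝ≥0∞ :=
  ∑' l : Traj D a b, xx ^ (l.1.length - 1)

/-- The probability. -/
noncomputable def P (D : Set V) (a b : V) (E : List V → Prop) : ℝ≥0∞ :=
  (∑' l : {l : List V // l ∈ Traj D a b ∧ E l}, xx ^ (l.1.length - 1)) / Z D a b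

noncomputable def emb (v : ℤ × ℤ) : ℂ :=
  ⟨Real.sqrt 3 / 2 * v.1, 3 / 2 * v.2 + if Even (v.1 + v.2) then 1 / 2 else 0⟩

noncomputable def lv (z : ℂ) : ℝ := (Real.sqrt 3 * z.re - z.im) / 2

def HD (a : ℂ) (ε r : ℝ) : Set ℂ := {z | ‖z - a‖ < r ∧ 0 < ε * (lv z - lv a)}

def Hd (δ ε r : ℝ) (p : ℤ × ℤ) : Set (ℤ × ℤ) :=
  {v | ‖(δ : ℂ) * emb v - δ * emb p‖ < r ∧ 0 ≤ ε * (lv (emb v) - lv (emb p))}

def Bd (ε : ℝ) (p : ℤ × ℤ) : Prop :=
  (ε = 1 ∧ Odd (p.1 + p.2)) ∨ (ε = -1 ∧ Even (p.1 + p.2))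

theorem two_point (Ω : Set ℂ) (hΩ : IsOpen Ω) (hc : IsConnected Ω) (a b : ℂ) (hab : a ≠ b)
    (ε ε' : ℝ) (hε : ε = 1 ∨ ε = -1) (hε' : ε' = 1 ∨ ε' = -1) (r : ℝ) (hr : 0 < r)
    (ha : HD a ε r ⊆ Ω) (hb : HD b ε' r ⊆ Ω) :
    ∃ K : Set ℂ, K ⊆ Ω ∧ IsCompact K ∧ ∃ C : ℕ, 1 ≤ C ∧ ∀ δ : ℝ, 0 < δ → C * δ ≤ 1 →
      ∀ (D : Set (ℤ × ℤ)) (p q : ℤ × ℤ), Bd ε p → Bd ε' q →
      C * ‖(δ : ℂ) * emb p - a‖ ≤ 1 → C * ‖(δ : ℂ) * emb q - b‖ ≤ 1 →
      (∀ v : ℤ × ℤ, (δ : ℂ) * emb v ∈ K → v ∈ D) → Hd δ ε r p ⊆ D → Hd δ ε' r q ⊆ D →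
      ENNReal.ofReal (δ ^ C) ≤ Z D p q :=
  Pool.Agent.W832.HR.domain_two_point Ω hΩ hc a b hab ε ε' hε hε' r hr ha hb

theorem Z_lt_top (D : Finset V) (a b : V) : Z (D : Set V) a b < ⊤ := by
  obtain ⟨K, hK0, hK⟩ := S_bound
  have hmu := mu_pos
  have h : Z (D : Set V) a b ≤ ENNReal.ofReal mu * ENNReal.ofReal ((({a} : Finset V).card : ℝ) *
      D.card * Real.exp (K * Real.log (D.card + 2) ^ 2) / mu) := by
    unfold Z
    rw [ENNReal.tsum_eq_iSup_sum]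
    refine iSup_le fun s => ?_
    have e1 : ∑ l ∈ s, xx ^ (l.1.length - 1) =
        ENNReal.ofReal mu * ∑ l ∈ s.map (Function.Embedding.subtype _), xx ^ l.length := by
      rw [Finset.sum_map, Finset.mul_sum]
      refine Finset.sum_congr rfl ?_
      rintro ⟨l, h1, h2⟩ -
      simp only [Function.Embedding.subtype_apply]
      match l, h1 with
      | x :: xs, _ =>
        rw [List.length_cons, Nat.add_sub_cancel, xx_pow, xx_pow, ← ENNReal.ofReal_mul hmu.le]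
        congr 1
        rw [pow_succ]
        field_simp
    rw [e1]
    refine mul_le_mul_right ?_ _
    refine hK _ {a} D.card ?_
    intro r hr
    rw [Finset.mem_map] at hr
    obtain ⟨⟨l, h1, h2, h3, h4, h5⟩, -, rfl⟩ := hr
    simp only [Function.Embedding.subtype_apply]
    refine ⟨h4, h3, ?_, a, by simp, h1⟩
    rw [← List.toFinset_card_of_nodup h3]
    apply Finset.card_le_card
    intro p hp
    exact_mod_cast h5 p (List.mem_toFinset.1 hp)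
  exact lt_of_le_of_lt h (ENNReal.mul_lt_top ENNReal.ofReal_lt_top ENNReal.ofReal_lt_top)

/-- the first part -/
theorem gen : ∃ K : ℝ, 0 ≤ K ∧ ∀ (D : Finset V) (a b : V) (lam : ℝ),
    ENNReal.ofReal (Real.exp (-lam)) ≤ Z (D : Set V) a b → ∀ (i j : ℤ) (n : ℕ),
    P (D : Set V) a b (fun l => 3 / 5 * (n : ℝ) ^ 2 < cnt i j n l) ≤
      ENNReal.ofReal (Real.exp (K * ((n + 1) * Real.log (D.card + 2) ^ 2) + lam - n ^ 2 / 50)) := by
  obtain ⟨K, hK0, hK⟩ := tsum_bound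
  refine ⟨K, hK0, fun D a b lam hZ i j n => ?_⟩
  unfold P
  refine (ENNReal.div_le_div (hK D a b i j n) hZ).trans ?_
  rw [← ENNReal.ofReal_div_of_pos (Real.exp_pos _), ← Real.exp_sub]
  apply ENNReal.ofReal_le_ofReal
  apply Real.exp_le_exp.2
  linarith

theorem dcard (M : ℝ) (δ : ℝ) (hδ : 0 < δ) (hδM : (4 * |M| + 5) * δ ≤ 1) (D : Set V)
    (hD : ∀ v ∈ D, ‖(δ : ℂ) * emb v‖ ≤ M) :
    ∃ D' : Finset V, D = (D' : Set V) ∧ (D'.card : ℝ) + 2 ≤ (1 / δ) ^ 4 := by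
  have hM0 : 0 ≤ |M| := abs_nonneg M
  have hδ1 : 1 ≤ 1 / δ := by
    rw [le_div_iff₀ hδ]
    nlinarith
  set B : ℝ := (2 * |M| + 1) / δ with hB
  have hB0 : 0 ≤ B := by positivity
  set A : ℤ := ⌊B⌋ with hA
  have hA0 : 0 ≤ A := Int.floor_nonneg.2 hB0
  have hsub : D ⊆ ((Finset.Icc (-A) A ×ˢ Finset.Icc (-A) A : Finset V) : Set V) := by
    intro v hv
    have h1 := hD v hv
    rw [norm_mul, Complex.norm_real, Real.norm_eq_abs, abs_of_pos hδ] at h1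
    have h2 : ‖emb v‖ ≤ |M| / δ := by
      rw [le_div_iff₀ hδ, mul_comm]
      exact h1.trans (le_abs_self M)
    have h3 : |(emb v).re| ≤ |M| / δ := (Complex.abs_re_le_norm _).trans h2
    have h4 : |(emb v).im| ≤ |M| / δ := (Complex.abs_im_le_norm _).trans h2
    have hs3 : 1 ≤ Real.sqrt 3 := by
      rw [Real.one_le_sqrt]; norm_num
    have hBe : B = 2 * (|M| / δ) + 1 / δ := by
      rw [hB]; ring
    have h5 : |(v.1 : ℝ)| ≤ B := by
      have e1 : (emb v).re = Real.sqrt 3 / 2 * v.1 := rfl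
      rw [e1, abs_mul, abs_of_pos (by positivity)] at h3
      have h6 : 0 ≤ |(v.1 : ℝ)| := abs_nonneg _
      have h7 : 1 / 2 * |(v.1 : ℝ)| ≤ Real.sqrt 3 / 2 * |(v.1 : ℝ)| :=
        mul_le_mul_of_nonneg_right (by linarith) h6
      rw [hBe]
      have : 0 ≤ 1 / δ := by positivity
      linarith
    have h6 : |(v.2 : ℝ)| ≤ B := by
      have e1 : (emb v).im = 3 / 2 * v.2 + if Even (v.1 + v.2) then 1 / 2 else 0 := rfl
      rw [e1] at h4
      rw [abs_le] at h4 ⊢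
      rw [hBe]
      have h8 : 0 ≤ |M| / δ := by positivity
      split_ifs at h4 <;> constructor <;> linarith [h4.1, h4.2]
    rw [Finset.mem_coe, Finset.mem_product, Finset.mem_Icc, Finset.mem_Icc]
    rw [abs_le] at h5 h6
    have g (z : ℤ) (hz : -B ≤ (z : ℝ) ∧ (z : ℝ) ≤ B) : -A ≤ z ∧ z ≤ A := by
      constructor
      · have : -z ≤ A := Int.le_floor.2 (by push_cast; linarith [hz.1])
        omega
      · exact Int.le_floor.2 hz.2
    exact ⟨g v.1 h5, g v.2 h6⟩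
  have hfin : D.Finite := (Finset.finite_toSet _).subset hsub
  refine ⟨hfin.toFinset, by simp, ?_⟩
  have hc : hfin.toFinset.card ≤ (Finset.Icc (-A) A ×ˢ Finset.Icc (-A) A : Finset V).card := by
    apply Finset.card_le_card
    intro v hv
    have := hsub (hfin.mem_toFinset.1 hv)
    exact_mod_cast this
  rw [Finset.card_product, Int.card_Icc] at hc
  have hc' : (hfin.toFinset.card : ℝ) ≤ (2 * B + 1) ^ 2 := by
    have h1 : (((A + 1 - -A).toNat : ℕ) : ℝ) = 2 * (A : ℝ) + 1 := by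
      have : (((A + 1 - -A).toNat : ℕ) : ℤ) = 2 * A + 1 := by
        rw [Int.toNat_of_nonneg (by omega)]; ring
      exact_mod_cast this
    have h2 : (hfin.toFinset.card : ℝ) ≤ (2 * (A : ℝ) + 1) * (2 * (A : ℝ) + 1) := by
      rw [← h1]; exact_mod_cast hc
    have h3 : (A : ℝ) ≤ B := Int.floor_le B
    have h4 : (0 : ℝ) ≤ A := by exact_mod_cast hA0
    nlinarith
  have h1 : (hfin.toFinset.card : ℝ) + 2 ≤ ((4 * |M| + 5) * (1 / δ)) ^ 2 := by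
    have h2 : 2 * B + 1 ≤ (4 * |M| + 3) * (1 / δ) := by
      have e2 : B = (2 * |M| + 1) * (1 / δ) := by rw [hB]; ring
      rw [e2]; linarith
    have h3 : (2 * B + 1) ^ 2 ≤ ((4 * |M| + 3) * (1 / δ)) ^ 2 :=
      pow_le_pow_left₀ (by positivity) h2 2
    have h4 : (1 : ℝ) ≤ (1 / δ) ^ 2 := one_le_pow₀ hδ1
    have h5 : ((4 * |M| + 5) * (1 / δ)) ^ 2 - ((4 * |M| + 3) * (1 / δ)) ^ 2 =
        (16 * |M| + 16) * (1 / δ) ^ 2 := by ring
    have h6 : 2 ≤ (16 * |M| + 16) * (1 / δ) ^ 2 := by nlinarith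
    linarith
  refine h1.trans ?_
  have h2 : 4 * |M| + 5 ≤ 1 / δ := by
    rw [le_div_iff₀ hδ]; exact hδM
  calc ((4 * |M| + 5) * (1 / δ)) ^ 2 ≤ ((1 / δ) * (1 / δ)) ^ 2 := by gcongr
    _ = (1 / δ) ^ 4 := by ring

end Pool.Agent.H21.SD
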