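import Pool.Agent.H21.SD.Dom

/-!
The domain version: the union over the boxes.
-/

set_option autoImplicit false

namespace Pool.Agent.H21.SD

open scoped ENNReal
open Classical

/-- the union over the boxes -/
theorem union_bound : ∃ K : ℝ, 0 ≤ K ∧ ∀ (D : Finset V) (a b : V) (s ℓ C1 : ℝ), 1 ≤ ℓ → 0 ≤ C1 →
    50 * (32 * K + C1 + 30) ≤ s → (D.card : ℝ) + 2 ≤ Real.exp (4 * ℓ) →
    ∑' l : {l : List V | l ∈ Traj D a b ∧ ∃ (i j : ℤ) (n : ℕ), s * ℓ ^ 2 ≤ n ∧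
      3 / 5 * (n : ℝ) ^ 2 < cnt i j n l}, xx ^ (l.1.length - 1) ≤
      ENNReal.ofReal (Real.exp (-(C1 * ℓ) - ℓ ^ 4)) := by
  obtain ⟨K, hK0, hK⟩ := tsum_bound
  refine ⟨K, hK0, fun D a b s ℓ C1 hℓ hC1 hs hD => ?_⟩
  set d := D.card with hd
  -- the index set
  let Q : Finset (ℤ × ℤ × ℕ) :=
    ((D ×ˢ (Finset.range (2 * d + 1) ×ˢ (Finset.range (2 * d + 1) ×ˢ Finset.range (2 * d + 1)))).image
      (fun t => (t.1.1 - (t.2.1 : ℤ), t.1.2 - (t.2.2.1 : ℤ), t.2.2.2))).filter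
      (fun t => s * ℓ ^ 2 ≤ (t.2.2 : ℝ))
  have hQc : (Q.card : ℝ) ≤ Real.exp (28 * ℓ) := by
    have h1 : Q.card ≤ d * ((2 * d + 1) * ((2 * d + 1) * (2 * d + 1))) := by
      refine (Finset.card_filter_le _ _).trans (Finset.card_image_le.trans ?_)
      simp only [Finset.card_product, Finset.card_range]
      exact le_rfl
    have h2 : (Q.card : ℝ) ≤ d * ((2 * d + 1) * ((2 * d + 1) * (2 * d + 1))) := by
      exact_mod_cast h1
    have hd0 : (0 : ℝ) ≤ d := Nat.cast_nonneg d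
    have h3 : (d : ℝ) * ((2 * d + 1) * ((2 * d + 1) * (2 * d + 1))) ≤ ((d : ℝ) + 2) ^ 7 := by
      have g1 : (2 * d + 1 : ℝ) ≤ (d + 2) ^ 2 := by nlinarith
      have g2 : (d : ℝ) ≤ d + 2 := by linarith
      calc (d : ℝ) * ((2 * d + 1) * ((2 * d + 1) * (2 * d + 1)))
          ≤ (d + 2) * ((d + 2) ^ 2 * ((d + 2) ^ 2 * (d + 2) ^ 2)) := by gcongr
        _ = ((d : ℝ) + 2) ^ 7 := by ring
    calc (Q.card : ℝ) ≤ ((d : ℝ) + 2) ^ 7 := h2.trans h3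
      _ ≤ Real.exp (4 * ℓ) ^ 7 := pow_le_pow_left₀ (by positivity) hD 7
      _ = Real.exp (28 * ℓ) := by
        rw [← Real.exp_nat_mul]; congr 1; push_cast; ring
  have hsub : {l : List V | l ∈ Traj D a b ∧ ∃ (i j : ℤ) (n : ℕ), s * ℓ ^ 2 ≤ n ∧
      3 / 5 * (n : ℝ) ^ 2 < cnt i j n l} ⊆
      ⋃ t ∈ Q, {l : List V | l ∈ Traj D a b ∧ 3 / 5 * (t.2.2 : ℝ) ^ 2 < cnt t.1 t.2.1 t.2.2 l} := by
    rintro l ⟨hl, i, j, n, h1, h2⟩
    rw [Set.mem_iUnion₂]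
    refine ⟨(i, j, n), ?_, hl, h2⟩
    have hcn : 0 < cnt i j n l := by
      have : (0 : ℝ) < cnt i j n l := lt_of_le_of_lt (by positivity) h2
      exact_mod_cast this
    rw [cnt_eq hl.2.2.1] at hcn h2
    obtain ⟨v, hv⟩ := List.exists_mem_of_length_pos hcn
    rw [List.mem_filter, decide_eq_true_eq, mem_Bx] at hv
    have hvD : v ∈ D := by exact_mod_cast hl.2.2.2.2 v hv.1
    have hlen : l.length ≤ d := by
      rw [← List.toFinset_card_of_nodup hl.2.2.1]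
      apply Finset.card_le_card
      intro p hp
      exact_mod_cast hl.2.2.2.2 p (List.mem_toFinset.1 hp)
    have hnd : n ≤ 2 * d := by
      have h8 : (l.filter (fun v => v ∈ Bx i j n)).length ≤ l.length := List.length_filter_le _ _
      have h9 : 3 * (n : ℝ) ^ 2 < 5 * d := by
        have : ((l.filter (fun v => v ∈ Bx i j n)).length : ℝ) ≤ d := by
          exact_mod_cast h8.trans hlen
        linarith
      have h10 : 3 * n ^ 2 < 5 * d := by exact_mod_cast h9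
      by_contra hcon
      push Not at hcon
      nlinarith
    rw [Finset.mem_filter, Finset.mem_image]
    refine ⟨⟨(v, ((v.1 - i).toNat, ((v.2 - j).toNat, n))), ?_, ?_⟩, h1⟩
    · simp only [Finset.mem_product, Finset.mem_range]
      refine ⟨hvD, ?_, ?_, ?_⟩ <;> omega
    · simp only [Prod.mk.injEq, and_true]
      constructor <;> omega
  refine (ENNReal.tsum_mono_subtype (fun l : List V => xx ^ (l.length - 1)) hsub).trans ?_
  refine (ENNReal.tsum_biUnion_le (fun l : List V => xx ^ (l.length - 1)) Q _).trans ?_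
  have hlog : Real.log (d + 2) ≤ 4 * ℓ := by
    rw [Real.log_le_iff_le_exp (by positivity)]
    exact hD
  have hlog0 : 0 ≤ Real.log ((d : ℝ) + 2) := Real.log_nonneg (by
    have : (0 : ℝ) ≤ d := Nat.cast_nonneg d
    linarith)
  have hlog2 : Real.log ((d : ℝ) + 2) ^ 2 ≤ 16 * ℓ ^ 2 := by
    calc Real.log ((d : ℝ) + 2) ^ 2 ≤ (4 * ℓ) ^ 2 := pow_le_pow_left₀ hlog0 hlog 2
      _ = 16 * ℓ ^ 2 := by ring
  have hbd : ∀ t ∈ Q, ∑' l : {l : List V | l ∈ Traj D a b ∧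
      3 / 5 * (t.2.2 : ℝ) ^ 2 < cnt t.1 t.2.1 t.2.2 l}, xx ^ (l.1.length - 1) ≤
      ENNReal.ofReal (Real.exp (-(C1 * ℓ) - ℓ ^ 4 - 28 * ℓ)) := by
    rintro ⟨i, j, n⟩ ht
    have hn : s * ℓ ^ 2 ≤ (n : ℝ) := (Finset.mem_filter.1 ht).2
    refine (hK D a b i j n).trans ?_
    apply ENNReal.ofReal_le_ofReal
    apply Real.exp_le_exp.2
    have hℓ2 : 1 ≤ ℓ ^ 2 := one_le_pow₀ hℓ
    have hs0 : 1500 ≤ s := by nlinarith
    have hn1 : (1 : ℝ) ≤ n := by nlinarith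
    have h1 : K * (((n : ℝ) + 1) * Real.log (d + 2) ^ 2) ≤ 32 * K * (n * ℓ ^ 2) := by
      have h2 : ((n : ℝ) + 1) * Real.log (d + 2) ^ 2 ≤ (2 * n) * (16 * ℓ ^ 2) :=
        mul_le_mul (by linarith) hlog2 (by positivity) (by positivity)
      calc K * (((n : ℝ) + 1) * Real.log (d + 2) ^ 2) ≤ K * ((2 * n) * (16 * ℓ ^ 2)) :=
            mul_le_mul_of_nonneg_left h2 hK0
        _ = 32 * K * (n * ℓ ^ 2) := by ring
    have h3 : (32 * K + C1 + 30) * (n * ℓ ^ 2) ≤ (n : ℝ) ^ 2 / 50 := by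
      have h4 : (50 * (32 * K + C1 + 30)) * ℓ ^ 2 ≤ n :=
        (mul_le_mul_of_nonneg_right hs (by positivity)).trans hn
      have h5 := mul_le_mul_of_nonneg_left h4 (by linarith : (0 : ℝ) ≤ n)
      nlinarith
    have h6 : ℓ ≤ n * ℓ ^ 2 := by
      have : ℓ ≤ ℓ ^ 2 := by nlinarith
      nlinarith
    have h7 : ℓ ^ 4 ≤ n * ℓ ^ 2 := by
      have h8 : ℓ ^ 2 ≤ n := by nlinarith
      calc ℓ ^ 4 = ℓ ^ 2 * ℓ ^ 2 := by ring
        _ ≤ n * ℓ ^ 2 := mul_le_mul_of_nonneg_right h8 (by positivity)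
    have h9 : C1 * ℓ ≤ C1 * (n * ℓ ^ 2) := mul_le_mul_of_nonneg_left h6 hC1
    have h10 : 0 ≤ (n : ℝ) * ℓ ^ 2 := by positivity
    nlinarith
  refine (Finset.sum_le_sum hbd).trans ?_
  rw [Finset.sum_const, nsmul_eq_mul, ← ENNReal.ofReal_natCast, ← ENNReal.ofReal_mul (by positivity)]
  apply ENNReal.ofReal_le_ofReal
  calc (Q.card : ℝ) * Real.exp (-(C1 * ℓ) - ℓ ^ 4 - 28 * ℓ)
      ≤ Real.exp (28 * ℓ) * Real.exp (-(C1 * ℓ) - ℓ ^ 4 - 28 * ℓ) :=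
        mul_le_mul_of_nonneg_right hQc (Real.exp_pos _).le
    _ = Real.exp (-(C1 * ℓ) - ℓ ^ 4) := by
        rw [← Real.exp_add]; congr 1; ring

theorem dom (W : Set ℂ) (hW : IsOpen W) (hc : IsConnected W) (a b : ℂ) (hab : a ≠ b)
    (ε ε' : ℝ) (hε : ε = 1 ∨ ε = -1) (hε' : ε' = 1 ∨ ε' = -1) (r : ℝ) (hr : 0 < r)
    (ha : HD a ε r ⊆ W) (hb : HD b ε' r ⊆ W) (M : ℝ) :
    ∃ K : Set ℂ, K ⊆ W ∧ IsCompact K ∧ ∃ C : ℝ, 1 ≤ C ∧ ∀ δ : ℝ, 0 < δ → C * δ ≤ 1 →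
      ∀ (D : Set (ℤ × ℤ)) (p q : ℤ × ℤ), Bd ε p → Bd ε' q →
      C * ‖(δ : ℂ) * emb p - a‖ ≤ 1 → C * ‖(δ : ℂ) * emb q - b‖ ≤ 1 →
      (∀ v : ℤ × ℤ, (δ : ℂ) * emb v ∈ K → v ∈ D) → Hd δ ε r p ⊆ D → Hd δ ε' r q ⊆ D →
      (∀ v ∈ D, ‖(δ : ℂ) * emb v‖ ≤ M) →
      0 < Z D p q ∧ Z D p q < ⊤ ∧
      P D p q (fun l => ∃ (i j : ℤ) (n : ℕ), C * Real.log (1 / δ) ^ 2 ≤ n ∧
        3 / 5 * (n : ℝ) ^ 2 < cnt i j n l) ≤
        ENNReal.ofReal (Real.exp (-Real.log (1 / δ) ^ 4)) := by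
  obtain ⟨K, hKW, hKc, C1, hC1, hZ⟩ := two_point W hW hc a b hab ε ε' hε hε' r hr ha hb
  obtain ⟨K0, hK0, hU⟩ := union_bound
  have hM0 : 0 ≤ |M| := abs_nonneg M
  have hC1r : (1 : ℝ) ≤ C1 := by exact_mod_cast hC1
  refine ⟨K, hKW, hKc, C1 + (4 * |M| + 5) + 50 * (32 * K0 + C1 + 30), by nlinarith, ?_⟩
  set C : ℝ := C1 + (4 * |M| + 5) + 50 * (32 * K0 + C1 + 30) with hC
  have hCC1 : (C1 : ℝ) ≤ C := by nlinarith
  have hCM : 4 * |M| + 5 ≤ C := by nlinarith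
  have hCK : 50 * (32 * K0 + C1 + 30) ≤ C := by nlinarith
  intro δ hδ hCδ D p q hp hq hpa hqb hKD hpD hqD hDM
  have hlow := hZ δ hδ ((mul_le_mul_of_nonneg_right hCC1 hδ.le).trans hCδ) D p q hp hq
    ((mul_le_mul_of_nonneg_right hCC1 (norm_nonneg _)).trans hpa)
    ((mul_le_mul_of_nonneg_right hCC1 (norm_nonneg _)).trans hqb) hKD hpD hqD
  obtain ⟨D', rfl, hD'⟩ := dcard M δ hδ ((mul_le_mul_of_nonneg_right hCM hδ.le).trans hCδ) D hDM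
  set ℓ := Real.log (1 / δ) with hℓ
  have hexp : Real.exp ℓ = 1 / δ := Real.exp_log (by positivity)
  have hδC : C ≤ 1 / δ := by
    rw [le_div_iff₀ hδ]; exact hCδ
  have hℓ1 : 1 ≤ ℓ := by
    rw [hℓ, Real.le_log_iff_exp_le (by positivity)]
    have := Real.exp_one_lt_d9
    linarith
  have hDe : (D'.card : ℝ) + 2 ≤ Real.exp (4 * ℓ) := by
    have e1 : Real.exp (4 * ℓ) = (1 / δ) ^ 4 := by
      rw [← hexp, ← Real.exp_nat_mul]
      push_cast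
      rfl
    rw [e1]
    exact hD'
  have hlow' : ENNReal.ofReal (Real.exp (-(C1 * ℓ))) ≤ Z (D' : Set V) p q := by
    have e1 : Real.exp (-(C1 * ℓ)) = δ ^ C1 := by
      rw [Real.exp_neg, Real.exp_nat_mul, hexp, one_div, inv_pow, inv_inv]
    rw [e1]
    exact hlow
  refine ⟨lt_of_lt_of_le (ENNReal.ofReal_pos.2 (Real.exp_pos _)) hlow', Z_lt_top D' p q, ?_⟩
  have hub := hU D' p q C ℓ C1 hℓ1 (by linarith) hCK hDe
  unfold P
  refine (ENNReal.div_le_div hub hlow').trans ?_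
  rw [← ENNReal.ofReal_div_of_pos (Real.exp_pos _), ← Real.exp_sub]
  apply ENNReal.ofReal_le_ofReal
  apply Real.exp_le_exp.2
  apply le_of_eq
  ring

end Pool.Agent.H21.SD
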