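import Pool.Agent.H21.SD.Num

/-!
The general bound for finite sets.
-/

set_option autoImplicit false

namespace Pool.Agent.H21.SD

open scoped ENNReal
open Classical

/-- outer neighbours of the box with `a` -/
noncomputable def ON (i j : ℤ) (n : ℕ) (a : V) : Finset V :=
  {a} ∪ (((Finset.Ico j (j + n)).image (fun y => ((i - 1, y) : V))) ∪
   (((Finset.Ico j (j + n)).image (fun y => ((i + n, y) : V))) ∪
   (((Finset.Ico i (i + n)).image (fun x => ((x, j - 1) : V))) ∪
   ((Finset.Ico i (i + n)).image (fun x => ((x, j + n) : V))))))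

theorem card_ON (i j : ℤ) (n : ℕ) (a : V) : (ON i j n a).card ≤ 4 * n + 1 := by
  unfold ON
  have h (k : ℤ) (f : ℤ → V) : ((Finset.Ico k (k + n)).image f).card ≤ n := by
    refine Finset.card_image_le.trans ?_
    rw [Int.card_Ico]
    simp
  refine (Finset.card_union_le _ _).trans ?_
  refine (Nat.add_le_add_left (Finset.card_union_le _ _) _).trans ?_
  refine (Nat.add_le_add_left (Nat.add_le_add_left (Finset.card_union_le _ _) _) _).trans ?_
  refine (Nat.add_le_add_left (Nat.add_le_add_left (Nat.add_le_add_left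
    (Finset.card_union_le _ _) _) _) _).trans ?_
  have h1 := h j (fun y => ((i - 1, y) : V))
  have h2 := h j (fun y => ((i + n, y) : V))
  have h3 := h i (fun x => ((x, j - 1) : V))
  have h4 := h i (fun x => ((x, j + n) : V))
  rw [Finset.card_singleton]
  omega

theorem mem_ON {i j : ℤ} {n : ℕ} (a : V) {u : V} (hu : u ∉ Bx i j n)
    (h : ∃ z ∈ Bx i j n, Nbr z u) : u ∈ ON i j n a := by
  obtain ⟨z, hz, hzu⟩ := h
  obtain ⟨x, y⟩ := u
  rw [mem_Bx] at hu hz
  simp only at hu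
  unfold ON
  simp only [Finset.mem_union, Finset.mem_singleton, Finset.mem_image, Finset.mem_Ico,
    Prod.mk.injEq]
  have h1 := (nbr_iff z (x, y)).1 hzu
  have h2 : (x = z.1 + 1 ∧ y = z.2) ∨ (x = z.1 - 1 ∧ y = z.2) ∨
      (x = z.1 ∧ (y = z.2 + 1 ∨ y = z.2 - 1)) := by
    unfold R L U at h1
    rcases h1 with h1 | h1 | h1
    · left
      simp only [Prod.mk.injEq] at h1
      exact h1
    · right; left
      simp only [Prod.mk.injEq] at h1
      exact h1
    · right; right
      split_ifs at h1 with he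
      · simp only [Prod.mk.injEq] at h1
        exact ⟨h1.1, Or.inl h1.2⟩
      · simp only [Prod.mk.injEq] at h1
        exact ⟨h1.1, Or.inr h1.2⟩
  right
  by_cases hx1 : x < i
  · left
    exact ⟨y, by omega, by omega, rfl⟩
  by_cases hx2 : i + n ≤ x
  · right; left
    exact ⟨y, by omega, by omega, rfl⟩
  by_cases hy1 : y < j
  · right; right; left
    exact ⟨x, by omega, rfl, by omega⟩
  · right; right; right
    exact ⟨x, by omega, rfl, by omega⟩

theorem fin_bound : ∃ K : ℝ, 0 ≤ K ∧ ∀ (D : Finset V) (a b : V) (i j : ℤ) (n : ℕ)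
    (T : Finset (List V)),
    (∀ l ∈ T, (l.head? = some a ∧ l.getLast? = some b ∧ l.Nodup ∧ l.IsChain Nbr ∧ ∀ p ∈ l, p ∈ D) ∧
      3 * n ^ 2 < 5 * (l.filter (fun v => v ∈ Bx i j n)).length) →
    ∑ l ∈ T, xx ^ (l.length - 1) ≤
      ENNReal.ofReal (Real.exp (K * ((n + 1) * Real.log (D.card + 2) ^ 2) - n ^ 2 / 50)) := by
  obtain ⟨K, hK0, hK⟩ := S_bound
  refine ⟨4 * K + 100, by linarith, fun D a b i j n T hT => ?_⟩
  rcases T.eq_empty_or_nonempty with rfl | ⟨l0, hl0⟩
  · simp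
  set d := D.card with hd
  have hlen : ∀ l : List V, l.Nodup → (∀ p ∈ l, p ∈ D) → l.length ≤ d := by
    intro l hn hD
    rw [← List.toFinset_card_of_nodup hn]
    apply Finset.card_le_card
    intro p hp
    exact hD p (List.mem_toFinset.1 hp)
  have hnd : n ≤ 2 * d := by
    obtain ⟨⟨h1, h2, h3, h4, h5⟩, h6⟩ := hT l0 hl0
    have h7 := hlen l0 h3 h5
    have h8 : (l0.filter (fun v => v ∈ Bx i j n)).length ≤ l0.length := List.length_filter_le _ _
    by_contra hcon
    push Not at hcon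
    have h9 : 3 * n ^ 2 < 5 * d := by omega
    nlinarith
  have hmu := mu_pos
  -- the weights
  have hw : ∀ l ∈ T, xx ^ (l.length - 1) = ENNReal.ofReal mu * xx ^ l.length := by
    intro l hl
    obtain ⟨⟨h1, -⟩, -⟩ := hT l hl
    match l, h1 with
    | x :: xs, _ =>
      rw [List.length_cons, Nat.add_sub_cancel, xx_pow, xx_pow, ← ENNReal.ofReal_mul hmu.le]
      congr 1
      rw [pow_succ]
      field_simp
  rw [Finset.sum_congr rfl hw, ← Finset.mul_sum]
  set m := 3 * n ^ 2 / 5 + 1 with hm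
  set N := ON i j n a with hN
  have hNc := card_ON i j n a
  rw [← hN] at hNc
  set P : Finset (List V) := T.biUnion (fun l => (outs (Bx i j n) l).toFinset) with hP
  have hx1 : xx ≤ 1 := by
    unfold xx
    rw [← ENNReal.ofReal_one]
    apply ENNReal.ofReal_le_ofReal
    rw [div_le_one hmu]
    exact one_le_mu
  have hms := main_sum xx hx1 i j n a b T
    (fun l hl => by
      obtain ⟨⟨h1, h2, h3, h4, h5⟩, -⟩ := hT l hl
      exact ⟨h4, h1, h2, h3⟩) m
    (fun l hl => by
      have h6 := (hT l hl).2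
      omega) N
    (by rw [hN]; unfold ON; simp) (fun u hu h => mem_ON a hu h) P
    (fun l hl r hr => by
      rw [hP, Finset.mem_biUnion]
      exact ⟨l, hl, List.mem_toFinset.2 hr⟩)
  have hPr : ∀ r ∈ P, r.IsChain Nbr ∧ r.Nodup ∧ r.length ≤ d ∧ ∃ u ∈ N, r.head? = some u := by
    intro r hr
    rw [hP, Finset.mem_biUnion] at hr
    obtain ⟨l, hl, hr⟩ := hr
    rw [List.mem_toFinset] at hr
    obtain ⟨⟨h1, h2, h3, h4, h5⟩, -⟩ := hT l hl
    obtain ⟨g1, g2, g3, g4⟩ := outs_mem h4 hr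
    have g5 : r.Nodup := h3.sublist g2.sublist
    have g6 : r.IsChain Nbr := by
      obtain ⟨s, t, e⟩ := g2
      rw [← e] at h4
      exact (List.isChain_append.1 (List.isChain_append.1 h4).1).2.1
    refine ⟨g6, g5, hlen r g5 (fun p hp => h5 p (g2.subset hp)), ?_⟩
    obtain ⟨u, us, rfl⟩ := List.exists_cons_of_ne_nil g1
    refine ⟨u, ?_, rfl⟩
    rcases g4 u rfl with h | h
    · rw [h1] at h
      simp only [Option.some.injEq] at h
      rw [← h, hN]
      unfold ON
      simp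
    · exact mem_ON a (g3 u (List.mem_cons_self)) h
  have hS := hK P N d hPr
  set A : ℝ := (4 * n + 1) * d * Real.exp (K * Real.log (d + 2) ^ 2) / mu with hA
  have hA0 : 0 ≤ A := by positivity
  have hS' : ∑ r ∈ P, xx ^ r.length ≤ ENNReal.ofReal A := by
    refine hS.trans (ENNReal.ofReal_le_ofReal ?_)
    rw [hA]
    have : (N.card : ℝ) ≤ 4 * n + 1 := by exact_mod_cast hNc
    gcongr
  have h1A : (1 : ℝ≥0∞) ≤ ENNReal.ofReal (1 + A) := by
    rw [← ENNReal.ofReal_one]
    exact ENNReal.ofReal_le_ofReal (by linarith)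
  have hsum : ∑ k ∈ Finset.range (N.card + 1), (∑ r ∈ P, xx ^ r.length) ^ k ≤
      ENNReal.ofReal ((4 * n + 2) * (1 + A) ^ (4 * n + 1)) := by
    have h2 : ∀ k ∈ Finset.range (N.card + 1), (∑ r ∈ P, xx ^ r.length) ^ k ≤
        ENNReal.ofReal (1 + A) ^ (4 * n + 1) := by
      intro k hk
      rw [Finset.mem_range] at hk
      have h3 : ∑ r ∈ P, xx ^ r.length ≤ ENNReal.ofReal (1 + A) :=
        hS'.trans (ENNReal.ofReal_le_ofReal (by linarith))
      exact (pow_le_pow_left₀ zero_le h3 k).trans (pow_le_pow_right₀ h1A (by omega))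
    refine (Finset.sum_le_sum h2).trans ?_
    rw [Finset.sum_const, Finset.card_range, nsmul_eq_mul,
      ← ENNReal.ofReal_pow (by positivity), ← ENNReal.ofReal_natCast,
      ← ENNReal.ofReal_mul (by positivity)]
    apply ENNReal.ofReal_le_ofReal
    have : ((N.card + 1 : ℕ) : ℝ) ≤ 4 * n + 2 := by
      have : (N.card : ℝ) ≤ 4 * n + 1 := by exact_mod_cast hNc
      push_cast
      linarith
    gcongr
  have h2K : (2 : ℝ≥0∞) ^ (Kx i j n).card ≤ ENNReal.ofReal (2 ^ (n * ((n + 1) / 2) + 2 * n)) := by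
    have h3 : ENNReal.ofReal 2 = 2 := by simp
    rw [ENNReal.ofReal_pow (by norm_num), h3]
    exact pow_le_pow_right₀ (by norm_num) (card_K i j n)
  calc ENNReal.ofReal mu * ∑ l ∈ T, xx ^ l.length
      ≤ ENNReal.ofReal mu * (xx ^ m * (ENNReal.ofReal (2 ^ (n * ((n + 1) / 2) + 2 * n)) *
          ENNReal.ofReal ((4 * n + 2) * (1 + A) ^ (4 * n + 1)))) :=
        mul_le_mul_right (hms.trans (mul_le_mul_right (mul_le_mul' h2K hsum) _)) _
    _ = ENNReal.ofReal (mu * ((1 / mu) ^ m * (2 ^ (n * ((n + 1) / 2) + 2 * n) *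
          ((4 * n + 2) * (1 + A) ^ (4 * n + 1))))) := by
        rw [xx_pow, ← ENNReal.ofReal_mul (by positivity), ← ENNReal.ofReal_mul (by positivity),
          ← ENNReal.ofReal_mul (by positivity)]
    _ ≤ _ := by
        apply ENNReal.ofReal_le_ofReal
        exact num_bound K hK0 n d m hnd (by omega)

/-- the self-avoiding trajectories -/
def Traj (D : Set V) (a b : V) : Set (List V) :=
  {l | l.head? = some a ∧ l.getLast? = some b ∧ l.Nodup ∧ l.IsChain Nbr ∧ ∀ p ∈ l, p ∈ D}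

/-- the number of the vertices in the box -/
noncomputable def cnt (i j : ℤ) (n : ℕ) (l : List V) : ℕ :=
  {v : V | v ∈ l ∧ (i ≤ v.1 ∧ v.1 < i + n) ∧ (j ≤ v.2 ∧ v.2 < j + n)}.ncard

theorem cnt_eq {i j : ℤ} {n : ℕ} {l : List V} (hl : l.Nodup) :
    cnt i j n l = (l.filter (fun v => v ∈ Bx i j n)).length := by
  rw [← List.toFinset_card_of_nodup (hl.filter _), ← Set.ncard_coe_finset]
  unfold cnt
  congr 1
  ext v
  simp only [Set.mem_ofPred_eq, List.coe_toFinset, List.mem_filter, decide_eq_true_eq, mem_Bx]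

theorem tsum_bound : ∃ K : ℝ, 0 ≤ K ∧ ∀ (D : Finset V) (a b : V) (i j : ℤ) (n : ℕ),
    ∑' l : {l : List V | l ∈ Traj D a b ∧ 3 / 5 * (n : ℝ) ^ 2 < cnt i j n l}, xx ^ (l.1.length - 1) ≤
      ENNReal.ofReal (Real.exp (K * ((n + 1) * Real.log (D.card + 2) ^ 2) - n ^ 2 / 50)) := by
  obtain ⟨K, hK0, hK⟩ := fin_bound
  refine ⟨K, hK0, fun D a b i j n => ?_⟩
  rw [ENNReal.tsum_eq_iSup_sum]
  refine iSup_le fun s => ?_
  have h := hK D a b i j n (s.map (Function.Embedding.subtype _)) (by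
    intro l hl
    rw [Finset.mem_map] at hl
    obtain ⟨⟨l', h1, h2⟩, -, rfl⟩ := hl
    simp only [Function.Embedding.subtype_apply]
    obtain ⟨g1, g2, g3, g4, g5⟩ := h1
    refine ⟨⟨g1, g2, g3, g4, g5⟩, ?_⟩
    rw [← cnt_eq g3]
    have : 3 * (n : ℝ) ^ 2 < 5 * cnt i j n l' := by linarith
    exact_mod_cast this)
  rw [Finset.sum_map] at h
  exact h

end Pool.Agent.H21.SD
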