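import Pool.Agent.H21.SD.Bound

/-!
Numerical estimates.
-/

set_option autoImplicit false

namespace Pool.Agent.H21.SD

theorem mu_sq : mu ^ 2 = 2 + Real.sqrt 2 := by
  unfold mu
  rw [Real.sq_sqrt (by positivity)]

theorem mu_le_two : mu ≤ 2 := by
  have h : Real.sqrt 2 ≤ 2 := by
    rw [Real.sqrt_le_left (by norm_num)]; norm_num
  unfold mu
  rw [Real.sqrt_le_left (by norm_num)]
  linarith

theorem one_le_mu : 1 ≤ mu := by
  unfold mu
  rw [Real.one_le_sqrt]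
  have : 0 ≤ Real.sqrt 2 := Real.sqrt_nonneg 2
  linarith

theorem log_mu : 23 / 26 * Real.log 2 ≤ Real.log mu := by
  have h2 : (1.41421 : ℝ) ≤ Real.sqrt 2 := by
    apply Real.le_sqrt_of_sq_le; norm_num
  have h1 : (2 : ℝ) ^ 23 ≤ mu ^ 26 := by
    calc (2 : ℝ) ^ 23 ≤ (3.41421 : ℝ) ^ 13 := by norm_num
      _ ≤ (2 + Real.sqrt 2) ^ 13 := pow_le_pow_left₀ (by norm_num) (by linarith) 13
      _ = mu ^ 26 := by rw [← mu_sq, ← pow_mul]
  have h3 := Real.log_le_log (by positivity) h1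
  rw [Real.log_pow, Real.log_pow] at h3
  push_cast at h3
  linarith

theorem log_two_le (d : ℝ) (hd : 0 ≤ d) : 0.69 ≤ Real.log (d + 2) := by
  have h1 : Real.log 2 ≤ Real.log (d + 2) := Real.log_le_log (by norm_num) (by linarith)
  have := Real.log_two_gt_d9
  linarith

theorem log_sq (d : ℝ) (hd : 0 ≤ d) : Real.log (d + 2) ≤ 1.5 * Real.log (d + 2) ^ 2 := by
  have := log_two_le d hd
  nlinarith

theorem log_sq' (d : ℝ) (hd : 0 ≤ d) : 1 ≤ 2.25 * Real.log (d + 2) ^ 2 := by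
  have := log_two_le d hd
  nlinarith

/-- powers of `d + 2` -/
theorem pow_exp (d : ℝ) (hd : 0 ≤ d) (k : ℕ) :
    (d + 2) ^ k ≤ Real.exp (1.5 * k * Real.log (d + 2) ^ 2) := by
  have h1 : (d + 2) ^ k = Real.exp (k * Real.log (d + 2)) := by
    rw [mul_comm, Real.exp_mul, Real.exp_log (by linarith), Real.rpow_natCast]
  rw [h1]
  apply Real.exp_le_exp.2
  have := log_sq d hd
  have hk : (0 : ℝ) ≤ k := Nat.cast_nonneg k
  nlinarith

theorem num_bound (K : ℝ) (hK : 0 ≤ K) (n d m : ℕ) (hn : n ≤ 2 * d) (hm : 3 * n ^ 2 ≤ 5 * m) :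
    mu * ((1 / mu) ^ m * (2 ^ (n * ((n + 1) / 2) + 2 * n) * ((4 * n + 2) *
      (1 + (4 * n + 1) * d * Real.exp (K * Real.log (d + 2) ^ 2) / mu) ^ (4 * n + 1)))) ≤
      Real.exp ((4 * K + 100) * ((n + 1) * Real.log (d + 2) ^ 2) - n ^ 2 / 50) := by
  set L := Real.log (d + 2) ^ 2 with hL
  have hd0 : (0 : ℝ) ≤ d := Nat.cast_nonneg d
  have hn0 : (0 : ℝ) ≤ n := Nat.cast_nonneg n
  have hnd : (n : ℝ) ≤ 2 * d := by exact_mod_cast hn
  have hL1 := log_sq' d hd0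
  rw [← hL] at hL1
  have hmu := mu_pos
  have hl2 : Real.log 2 ≤ 0.7 := by
    have := Real.log_two_lt_d9; linarith
  have hl2' : 0.693 ≤ Real.log 2 := by
    have := Real.log_two_gt_d9; linarith
  -- the factors
  have f1 : mu ≤ Real.exp (2 * L) := by
    have h1 : mu ≤ 1 + 1 := by have := mu_le_two; linarith
    have h2 : (1 : ℝ) + 1 ≤ Real.exp 1 := Real.add_one_le_exp 1
    have h3 : Real.exp 1 ≤ Real.exp (2.25 * L) := Real.exp_le_exp.2 hL1
    have h4 : mu ≤ Real.exp (Real.log 2) := by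
      rw [Real.exp_log (by norm_num)]; exact mu_le_two
    refine h4.trans (Real.exp_le_exp.2 ?_)
    nlinarith
  have f2 : (1 / mu) ^ m = Real.exp (-(m * Real.log mu)) := by
    rw [Real.exp_neg, mul_comm, Real.exp_mul, Real.exp_log hmu, Real.rpow_natCast, one_div, inv_pow]
  have f3 : (2 : ℝ) ^ (n * ((n + 1) / 2) + 2 * n) ≤
      Real.exp (Real.log 2 * (n ^ 2 / 2 + 5 / 2 * n)) := by
    rw [Real.exp_mul, Real.exp_log (by norm_num), ← Real.rpow_natCast]
    apply Real.rpow_le_rpow_of_exponent_le (by norm_num)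
    have h1 : (((n + 1) / 2 : ℕ) : ℝ) ≤ (n + 1) / 2 := by
      have := @Nat.cast_div_le ℝ _ _ _ (n + 1) 2
      push_cast at this
      exact this
    push_cast
    nlinarith
  have f4 : (4 * n + 2 : ℝ) ≤ Real.exp (6 * L) := by
    have h1 := pow_exp d hd0 4
    have h2 : (4 * n + 2 : ℝ) ≤ (d + 2) ^ 4 := by
      have h3 : (8 : ℝ) ≤ (d + 2) ^ 3 := by
        calc (8 : ℝ) = 2 ^ 3 := by norm_num
          _ ≤ (d + 2) ^ 3 := pow_le_pow_left₀ (by norm_num) (by linarith) 3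
      calc (4 * n + 2 : ℝ) ≤ 8 * (d + 2) := by linarith
        _ ≤ (d + 2) ^ 3 * (d + 2) := mul_le_mul_of_nonneg_right h3 (by linarith)
        _ = (d + 2) ^ 4 := by ring
    refine h2.trans (h1.trans (Real.exp_le_exp.2 ?_))
    push_cast
    rw [← hL]
    linarith
  have f5 : 1 + (4 * n + 1) * d * Real.exp (K * L) / mu ≤ Real.exp ((K + 9) * L) := by
    have h0 : 1 ≤ Real.exp (K * L) := Real.one_le_exp (by nlinarith)
    have h1 : (4 * n + 1) * d * Real.exp (K * L) / mu ≤ (4 * n + 1) * d * Real.exp (K * L) :=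
      div_le_self (by positivity) one_le_mu
    have h2 : (1 : ℝ) + (4 * n + 1) * d ≤ (d + 2) ^ 6 := by
      have h3 : (8 : ℝ) ≤ (d + 2) ^ 4 := by
        calc (8 : ℝ) ≤ 2 ^ 4 := by norm_num
          _ ≤ (d + 2) ^ 4 := pow_le_pow_left₀ (by norm_num) (by linarith) 4
      calc (1 : ℝ) + (4 * n + 1) * d ≤ 1 + (8 * d + 1) * d := by nlinarith
        _ ≤ 8 * (d + 2) ^ 2 := by nlinarith
        _ ≤ (d + 2) ^ 4 * (d + 2) ^ 2 := mul_le_mul_of_nonneg_right h3 (by positivity)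
        _ = (d + 2) ^ 6 := by ring
    have h4 := pow_exp d hd0 6
    push_cast at h4
    rw [← hL] at h4
    calc 1 + (4 * n + 1) * d * Real.exp (K * L) / mu
        ≤ 1 * Real.exp (K * L) + (4 * n + 1) * d * Real.exp (K * L) := by linarith
      _ = (1 + (4 * n + 1) * d) * Real.exp (K * L) := by ring
      _ ≤ Real.exp (1.5 * 6 * L) * Real.exp (K * L) :=
          mul_le_mul_of_nonneg_right (h2.trans h4) (Real.exp_pos _).le
      _ = Real.exp ((K + 9) * L) := by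
          rw [← Real.exp_add]; congr 1; ring
  have f6 : (1 + (4 * n + 1) * d * Real.exp (K * L) / mu) ^ (4 * n + 1) ≤
      Real.exp ((4 * n + 1) * ((K + 9) * L)) := by
    refine (pow_le_pow_left₀ (by positivity) f5 _).trans (le_of_eq ?_)
    rw [← Real.exp_nat_mul]
    congr 1
    push_cast
    ring
  have hfin : mu * ((1 / mu) ^ m * (2 ^ (n * ((n + 1) / 2) + 2 * n) * ((4 * n + 2) *
      (1 + (4 * n + 1) * d * Real.exp (K * L) / mu) ^ (4 * n + 1)))) ≤
      Real.exp (2 * L) * (Real.exp (-(m * Real.log mu)) *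
        (Real.exp (Real.log 2 * (n ^ 2 / 2 + 5 / 2 * n)) * (Real.exp (6 * L) *
          Real.exp ((4 * n + 1) * ((K + 9) * L))))) := by
    rw [f2]
    gcongr
  refine hfin.trans ?_
  rw [← Real.exp_add, ← Real.exp_add, ← Real.exp_add, ← Real.exp_add]
  apply Real.exp_le_exp.2
  have hmr : 3 * (n : ℝ) ^ 2 ≤ 5 * m := by exact_mod_cast hm
  have hlm := log_mu
  have hlm0 : 0 ≤ Real.log mu := Real.log_nonneg one_le_mu
  have g1 : 3 / 5 * (n : ℝ) ^ 2 * (23 / 26 * Real.log 2) ≤ m * Real.log mu := by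
    calc 3 / 5 * (n : ℝ) ^ 2 * (23 / 26 * Real.log 2) ≤ 3 / 5 * (n : ℝ) ^ 2 * Real.log mu :=
          mul_le_mul_of_nonneg_left hlm (by positivity)
      _ ≤ m * Real.log mu := mul_le_mul_of_nonneg_right (by linarith) hlm0
  have g2 : (n : ℝ) ^ 2 / 50 ≤ (n : ℝ) ^ 2 * ((3 / 5 * (23 / 26) - 1 / 2) * Real.log 2) := by
    have : (1 / 50 : ℝ) ≤ (3 / 5 * (23 / 26) - 1 / 2) * Real.log 2 := by linarith
    have h2 : (0 : ℝ) ≤ (n : ℝ) ^ 2 := by positivity
    nlinarith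
  have g3 : Real.log 2 * (5 / 2 * n) ≤ 4 * (n * L) := by
    have h1 : Real.log 2 * (5 / 2 * n) ≤ 0.7 * (5 / 2 * n) :=
      mul_le_mul_of_nonneg_right hl2 (by positivity)
    have h2 : (n : ℝ) * 1 ≤ n * (2.25 * L) := mul_le_mul_of_nonneg_left hL1 hn0
    linarith
  have hL0 : 0 ≤ L := by positivity
  have hnL : 0 ≤ (n : ℝ) * L := by positivity
  have hKL : 0 ≤ K * L := by positivity
  have hKnL : 0 ≤ K * (n * L) := by positivity
  nlinarith

end Pool.Agent.H21.SD
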