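import Pool.Agent.H21.SD.Box

/-!
The sum over the walks with many vertices in a box.
-/

set_option autoImplicit false

namespace Pool.Agent.H21.SD

open scoped ENNReal
open Classical

theorem lsum {α : Type} (P : Finset α) (g : α → ℝ≥0∞) : ∀ (k : ℕ) (F : Finset (List α)),
    (∀ R ∈ F, R.length = k ∧ ∀ r ∈ R, r ∈ P) →
    ∑ R ∈ F, (R.map g).prod ≤ (∑ r ∈ P, g r) ^ k
  | 0, F, h => by
    have hF : F ⊆ {[]} := by
      intro R hR
      rw [Finset.mem_singleton]
      exact List.length_eq_zero_iff.1 (h R hR).1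
    refine (Finset.sum_le_sum_of_subset hF).trans ?_
    simp
  | k + 1, F, h => by
    have hsub : F ⊆ (P ×ˢ (F.image List.tail)).image (fun d => d.1 :: d.2) := by
      intro R hR
      obtain ⟨h1, h2⟩ := h R hR
      match R, h1, h2, hR with
      | r :: R, h1, h2, hR =>
        rw [Finset.mem_image]
        refine ⟨(r, R), Finset.mem_product.2 ⟨h2 r (List.mem_cons_self), ?_⟩, rfl⟩
        rw [Finset.mem_image]
        exact ⟨r :: R, hR, rfl⟩
    refine (Finset.sum_le_sum_of_subset hsub).trans ?_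
    rw [Finset.sum_image]
    · rw [Finset.sum_product]
      have ih := lsum P g k (F.image List.tail) (by
        intro R hR
        rw [Finset.mem_image] at hR
        obtain ⟨R', hR', rfl⟩ := hR
        obtain ⟨h1, h2⟩ := h R' hR'
        refine ⟨by rw [List.length_tail, h1]; rfl, fun r hr => h2 r (List.mem_of_mem_tail hr)⟩)
      calc ∑ r ∈ P, ∑ R ∈ F.image List.tail, (List.map g (r :: R)).prod
          = ∑ r ∈ P, g r * ∑ R ∈ F.image List.tail, (List.map g R).prod := by
            refine Finset.sum_congr rfl fun r _ => ?_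
            rw [Finset.mul_sum]
            refine Finset.sum_congr rfl fun R _ => ?_
            rw [List.map_cons, List.prod_cons]
        _ ≤ ∑ r ∈ P, g r * (∑ r ∈ P, g r) ^ k :=
            Finset.sum_le_sum fun r _ => mul_le_mul_right ih _
        _ = (∑ r ∈ P, g r) ^ (k + 1) := by
            rw [← Finset.sum_mul, pow_succ, mul_comm]
    · rintro ⟨r, R⟩ _ ⟨r', R'⟩ _ h'
      simp only [List.cons.injEq] at h'
      rw [h'.1, h'.2]

theorem main_sum (x : ℝ≥0∞) (hx : x ≤ 1) (i j : ℤ) (n : ℕ) (a b : V) (T : Finset (List V))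
    (hT : ∀ l ∈ T, l.IsChain Nbr ∧ l.head? = some a ∧ l.getLast? = some b ∧ l.Nodup) (m : ℕ)
    (hm : ∀ l ∈ T, m ≤ (l.filter (fun v => v ∈ Bx i j n)).length) (N : Finset V) (haN : a ∈ N)
    (hN : ∀ u, u ∉ Bx i j n → (∃ z ∈ Bx i j n, Nbr z u) → u ∈ N) (P : Finset (List V))
    (hP : ∀ l ∈ T, ∀ r ∈ outs (Bx i j n) l, r ∈ P) :
    ∑ l ∈ T, x ^ l.length ≤ x ^ m * (2 ^ (Kx i j n).card *
      ∑ k ∈ Finset.range (N.card + 1), (∑ r ∈ P, x ^ r.length) ^ k) := by
  set B := Bx i j n with hB
  let w : List (List V) → ℝ≥0∞ := fun R => (R.map (fun r => x ^ r.length)).prod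
  have hw : ∀ l ∈ T, x ^ l.length ≤ x ^ m * w (outs B l) := by
    intro l hl
    have h1 := outs_length (B := B) l
    have h2 : ∀ R : List (List V), x ^ (R.map List.length).sum = w R := by
      intro R
      induction R with
      | nil => simp [w]
      | cons r R ih =>
        simp only [w, List.map_cons, List.sum_cons, List.prod_cons, pow_add] at ih ⊢
        rw [ih]
    rw [h1, pow_add, h2]
    exact mul_le_mul_left (pow_le_pow_of_le_one zero_le hx (hm l hl)) _
  refine (Finset.sum_le_sum hw).trans ?_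
  rw [← Finset.mul_sum]
  refine mul_le_mul_right ?_ _
  -- the map
  have hinj : Set.InjOn (fun l => (outs B l, code i j n l)) (T : Set (List V)) := by
    intro l hl l' hl' h
    simp only [Prod.mk.injEq] at h
    obtain ⟨h1, h2, h3, h4⟩ := hT l hl
    obtain ⟨h1', h2', h3', h4'⟩ := hT l' hl'
    exact inj h1 h2 h3 h4 h1' h2' h3' h4' h.1 h.2
  have e1 : ∑ l ∈ T, w (outs B l) =
      ∑ q ∈ T.image (fun l => (outs B l, code i j n l)), w q.1 := by
    rw [Finset.sum_image hinj]
  rw [e1]
  have hsub : T.image (fun l => (outs B l, code i j n l)) ⊆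
      (T.image (outs B)) ×ˢ (Kx i j n).powerset := by
    intro q hq
    rw [Finset.mem_image] at hq
    obtain ⟨l, hl, rfl⟩ := hq
    rw [Finset.mem_product]
    exact ⟨Finset.mem_image_of_mem _ hl, Finset.mem_powerset.2 (Finset.filter_subset _ _)⟩
  refine (Finset.sum_le_sum_of_subset hsub).trans ?_
  rw [Finset.sum_product]
  have e2 : ∀ R ∈ T.image (outs B), ∑ _C ∈ (Kx i j n).powerset, w R =
      2 ^ (Kx i j n).card * w R := by
    intro R _
    rw [Finset.sum_const, Finset.card_powerset, nsmul_eq_mul]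
    push_cast
    rfl
  rw [Finset.sum_congr rfl e2, ← Finset.mul_sum]
  refine mul_le_mul_right ?_ _
  have hlen : ∀ R ∈ T.image (outs B), R.length ∈ Finset.range (N.card + 1) := by
    intro R hR
    rw [Finset.mem_image] at hR
    obtain ⟨l, hl, rfl⟩ := hR
    obtain ⟨h1, h2, h3, h4⟩ := hT l hl
    rw [Finset.mem_range]
    refine Nat.lt_succ_of_le (outs_count h1 h4 N ?_)
    rintro u hub (hu | hu)
    · rw [h2] at hu
      simp only [Option.some.injEq] at hu
      rw [← hu]
      exact haN
    · exact hN u hub hu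
  rw [← Finset.sum_fiberwise_of_maps_to hlen]
  refine Finset.sum_le_sum fun k _ => ?_
  refine lsum P (fun r => x ^ r.length) k _ ?_
  intro R hR
  rw [Finset.mem_filter, Finset.mem_image] at hR
  obtain ⟨⟨l, hl, rfl⟩, hk⟩ := hR
  exact ⟨hk, fun r hr => hP l hl r hr⟩

end Pool.Agent.H21.SD
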