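import Pool.Agent.H21.SD.Dom2
import Pool.Graph.R_seed8.R644.SP.Count

/-!
Uniform `n`-step walks.
-/

set_option autoImplicit false

namespace Pool.Agent.H21.SD

open scoped ENNReal
open Classical

theorem chain_loc : ∀ (l : List V) (u : V), l.head? = some u → l.IsChain Nbr → ∀ p ∈ l,
    |p.1 - u.1| ≤ (l.length : ℤ) - 1 ∧ |p.2 - u.2| ≤ (l.length : ℤ) - 1
  | [], u, h, _, p, hp => by simp at hp
  | [x], u, h, _, p, hp => by
    simp only [List.head?_cons, Option.some.injEq] at h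
    rw [List.mem_singleton] at hp
    subst h; subst hp
    simp
  | x :: y :: xs, u, h, hc, p, hp => by
    simp only [List.head?_cons, Option.some.injEq] at h
    subst h
    rw [List.isChain_cons_cons] at hc
    obtain ⟨h1, h2⟩ := hc
    have hlen : ((x :: y :: xs).length : ℤ) = (xs.length : ℤ) + 2 := by
      simp only [List.length_cons]; push_cast; ring
    rcases List.mem_cons.1 hp with rfl | hp'
    · rw [hlen]
      simp only [sub_self, abs_zero]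
      constructor <;> omega
    · have ih := chain_loc (y :: xs) y rfl h2 p hp'
      have hlen' : ((y :: xs).length : ℤ) = (xs.length : ℤ) + 1 := by
        simp only [List.length_cons]; push_cast; ring
      rw [hlen'] at ih
      rw [hlen]
      have hy : |y.1 - x.1| ≤ 1 ∧ |y.2 - x.2| ≤ 1 := by
        unfold Nbr at h1
        rw [abs_le, abs_le]
        omega
      rw [abs_le, abs_le] at ih hy ⊢
      omega

/-- the big box -/
noncomputable def DD (n : ℕ) : Finset V :=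
  Finset.Icc (-(n : ℤ)) n ×ˢ Finset.Icc (-(n : ℤ)) n

theorem card_DD (n : ℕ) : (DD n).card = (2 * n + 1) ^ 2 := by
  unfold DD
  rw [Finset.card_product, Int.card_Icc]
  have : ((n : ℤ) + 1 - -(n : ℤ)).toNat = 2 * n + 1 := by omega
  rw [this]
  ring

theorem isSW_traj {n : ℕ} {l : List V} (hl : Pool.Agent.Y981.QB.IsSW (0, 0) n l) :
    ∃ b ∈ DD n, l.getLast? = some b ∧ l ∈ Traj (DD n : Set V) (0, 0) b := by
  obtain ⟨h1, h2, h3, h4⟩ := hl
  rw [← nbr_eq] at h3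
  have hne : l ≠ [] := by
    intro h; rw [h] at h1; simp at h1
  have hmem : ∀ p ∈ l, p ∈ DD n := by
    intro p hp
    have h5 := chain_loc l (0, 0) h2 h3 p hp
    rw [h1] at h5
    push_cast at h5
    simp only [sub_zero, abs_le] at h5
    unfold DD
    rw [Finset.mem_product, Finset.mem_Icc, Finset.mem_Icc]
    omega
  refine ⟨l.getLast hne, hmem _ (List.getLast_mem hne), List.getLast?_eq_some_getLast hne, h2,
    List.getLast?_eq_some_getLast hne, h4, h3, ?_⟩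
  intro p hp
  exact_mod_cast hmem p hp

theorem lists_bound (n : ℕ) (E : List V → Prop) (B : ℝ) (hB : 0 ≤ B)
    (hE : ∀ b, ∑' l : {l : List V | l ∈ Traj (DD n : Set V) (0, 0) b ∧ E l},
      xx ^ (l.1.length - 1) ≤ ENNReal.ofReal B)
    (F : Finset (List V)) (hF : ∀ l ∈ F, Pool.Agent.Y981.QB.IsSW (0, 0) n l ∧ E l) :
    (F.card : ℝ) ≤ mu ^ n * ((2 * n + 1) ^ 2 * B) := by
  have hmu := mu_pos
  have h1 : ∑ l ∈ F, xx ^ (l.length - 1) = ENNReal.ofReal (F.card * (1 / mu) ^ n) := by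
    rw [ENNReal.ofReal_mul (by positivity), ENNReal.ofReal_natCast, ← xx_pow, ← nsmul_eq_mul,
      ← Finset.sum_const]
    refine Finset.sum_congr rfl fun l hl => ?_
    rw [(hF l hl).1.1, Nat.add_sub_cancel]
  have hmaps : ∀ l ∈ F, (l.getLast?).getD (0, 0) ∈ DD n := by
    intro l hl
    obtain ⟨b, hb, h2, -⟩ := isSW_traj (hF l hl).1
    rw [h2]
    exact hb
  have h2 : ∑ l ∈ F, xx ^ (l.length - 1) ≤ ENNReal.ofReal ((2 * n + 1) ^ 2 * B) := by
    rw [← Finset.sum_fiberwise_of_maps_to hmaps]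
    have h3 : ∀ b ∈ DD n, ∑ l ∈ F with (l.getLast?).getD (0, 0) = b, xx ^ (l.length - 1) ≤
        ENNReal.ofReal B := by
      intro b _
      refine le_trans ?_ (hE b)
      rw [← Finset.tsum_subtype' (F.filter (fun l => (l.getLast?).getD (0, 0) = b))
        (fun l : List V => xx ^ (l.length - 1))]
      refine ENNReal.tsum_mono_subtype (fun l : List V => xx ^ (l.length - 1)) ?_
      intro l hl
      rw [Finset.mem_coe, Finset.mem_filter] at hl
      obtain ⟨b', -, h4, h5⟩ := isSW_traj (hF l hl.1).1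
      have h6 := hl.2
      rw [h4] at h6
      simp only [Option.getD_some] at h6
      rw [h6] at h5
      exact ⟨h5, (hF l hl.1).2⟩
    refine (Finset.sum_le_sum h3).trans ?_
    rw [Finset.sum_const, nsmul_eq_mul, card_DD, ← ENNReal.ofReal_natCast,
      ← ENNReal.ofReal_mul (by positivity)]
    push_cast
    exact le_rfl
  rw [h1, ENNReal.ofReal_le_ofReal_iff (by positivity)] at h2
  have h3 : (F.card : ℝ) = mu ^ n * (F.card * (1 / mu) ^ n) := by
    rw [one_div, inv_pow]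
    field_simp
  rw [h3]
  exact mul_le_mul_of_nonneg_left h2 (by positivity)

/-- the number of the visited vertices in the box -/
noncomputable def bc (i j : ℤ) (m : ℕ) {n : ℕ} (f : Fin (n + 1) → V) : ℕ :=
  {v : V | v ∈ Set.range f ∧ (i ≤ v.1 ∧ v.1 < i + m) ∧ (j ≤ v.2 ∧ v.2 < j + m)}.ncard

theorem bc_eq (i j : ℤ) (m : ℕ) {n : ℕ} (f : Fin (n + 1) → V) :
    bc i j m f = cnt i j m (List.ofFn f) := by
  unfold bc cnt
  simp only [List.mem_ofFn', Set.mem_range]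

theorem numbers (n : ℕ) (hn : 3 ≤ n) : 1 ≤ Real.log n ∧
    ((DD n).card : ℝ) + 2 ≤ Real.exp (4 * Real.log n) ∧
    (2 * (n : ℝ) + 1) ^ 2 ≤ Real.exp (4 * Real.log n) := by
  have hn3 : (3 : ℝ) ≤ n := by exact_mod_cast hn
  have e1 : Real.exp (4 * Real.log n) = (n : ℝ) ^ 4 := by
    rw [show (4 : ℝ) * Real.log n = ((4 : ℕ) : ℝ) * Real.log n by norm_num, Real.exp_nat_mul,
      Real.exp_log (by positivity)]
  have h1 : (2 * (n : ℝ) + 1) ^ 2 + 2 ≤ (n : ℝ) ^ 4 := by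
    have h2 : 9 * (n : ℝ) ^ 2 ≤ (n : ℝ) ^ 4 := by
      have : (9 : ℝ) ≤ (n : ℝ) ^ 2 := by nlinarith
      nlinarith [sq_nonneg (n : ℝ)]
    nlinarith
  refine ⟨?_, ?_, ?_⟩
  · rw [Real.le_log_iff_exp_le (by positivity)]
    have := Real.exp_one_lt_d9
    linarith
  · rw [e1, card_DD]
    push_cast
    exact h1
  · rw [e1]
    linarith

theorem unif_box : ∃ C : ℝ, 0 ≤ C ∧ ∀ n : ℕ, 3 ≤ n → ∀ (i j : ℤ) (m : ℕ),
    ({f ∈ H978R2.Hex.saws n | 3 / 5 * (m : ℝ) ^ 2 < bc i j m f}.ncard : ℝ) ≤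
      Real.exp (C * ((m + 1) * Real.log n ^ 2) - m ^ 2 / 50) * (H978R2.Hex.saws n).ncard := by
  obtain ⟨K, hK0, hK⟩ := tsum_bound
  refine ⟨16 * K + 4, by positivity, fun n hn i j m => ?_⟩
  obtain ⟨hℓ, hD, hn2⟩ := numbers n hn
  set ℓ := Real.log n with hℓd
  have hlog : Real.log (((DD n).card : ℝ) + 2) ≤ 4 * ℓ := by
    rw [Real.log_le_iff_le_exp (by positivity)]
    exact hD
  have hlog0 : 0 ≤ Real.log (((DD n).card : ℝ) + 2) := Real.log_nonneg (by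
    have : (0 : ℝ) ≤ (DD n).card := Nat.cast_nonneg _
    linarith)
  have hlog2 : Real.log (((DD n).card : ℝ) + 2) ^ 2 ≤ 16 * ℓ ^ 2 := by
    calc Real.log (((DD n).card : ℝ) + 2) ^ 2 ≤ (4 * ℓ) ^ 2 := pow_le_pow_left₀ hlog0 hlog 2
      _ = 16 * ℓ ^ 2 := by ring
  have h1 := Pool.Agent.Y981.QB.ncard_le_of_lists n
    (fun f => 3 / 5 * (m : ℝ) ^ 2 < bc i j m f)
    (fun l => 3 / 5 * (m : ℝ) ^ 2 < cnt i j m l)
    (mu ^ n * ((2 * n + 1) ^ 2 *
      Real.exp (K * ((m + 1) * Real.log ((DD n).card + 2) ^ 2) - m ^ 2 / 50)))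
    (fun f _ hf => by rw [← bc_eq]; exact hf)
    (lists_bound n _ _ (Real.exp_pos _).le (fun b => hK (DD n) (0, 0) b i j m))
  have h2 := Pool.Agent.Y981.QB.saws_lower n
  rw [← mu_eq] at h2
  refine h1.trans ?_
  have h3 : (2 * (n : ℝ) + 1) ^ 2 *
      Real.exp (K * ((m + 1) * Real.log ((DD n).card + 2) ^ 2) - m ^ 2 / 50) ≤
      Real.exp ((16 * K + 4) * ((m + 1) * ℓ ^ 2) - m ^ 2 / 50) := by
    calc _ ≤ Real.exp (4 * ℓ) *
        Real.exp (K * ((m + 1) * Real.log ((DD n).card + 2) ^ 2) - m ^ 2 / 50) :=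
          mul_le_mul_of_nonneg_right hn2 (Real.exp_pos _).le
      _ ≤ _ := by
        rw [← Real.exp_add]
        apply Real.exp_le_exp.2
        have hm0 : (0 : ℝ) ≤ m := Nat.cast_nonneg m
        have h4 : K * ((m + 1) * Real.log ((DD n).card + 2) ^ 2) ≤
            K * ((m + 1) * (16 * ℓ ^ 2)) :=
          mul_le_mul_of_nonneg_left (mul_le_mul_of_nonneg_left hlog2 (by positivity)) hK0
        have h5 : ℓ ≤ (m + 1) * ℓ ^ 2 := by
          have h6 : ℓ ≤ ℓ ^ 2 := by nlinarith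
          have h7 : 0 ≤ (m : ℝ) * ℓ ^ 2 := by positivity
          nlinarith
        nlinarith
  calc mu ^ n * ((2 * (n : ℝ) + 1) ^ 2 *
      Real.exp (K * ((m + 1) * Real.log ((DD n).card + 2) ^ 2) - m ^ 2 / 50))
      ≤ (H978R2.Hex.saws n).ncard *
        Real.exp ((16 * K + 4) * ((m + 1) * ℓ ^ 2) - m ^ 2 / 50) :=
        mul_le_mul h2 h3 (by positivity) (Nat.cast_nonneg _)
    _ = _ := mul_comm _ _

theorem unif_all : ∃ C : ℝ, 1 ≤ C ∧ ∀ C' : ℝ, C ≤ C' → ∀ n : ℕ, 3 ≤ n →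
    ({f ∈ H978R2.Hex.saws n | ∃ (i j : ℤ) (m : ℕ), C' * Real.log n ^ 2 ≤ m ∧
      3 / 5 * (m : ℝ) ^ 2 < bc i j m f}.ncard : ℝ) ≤
      Real.exp (-Real.log n ^ 4) * (H978R2.Hex.saws n).ncard := by
  obtain ⟨K, hK0, hK⟩ := union_bound
  refine ⟨50 * (32 * K + 4 + 30), by nlinarith, fun C' hC' n hn => ?_⟩
  obtain ⟨hℓ, hD, hn2⟩ := numbers n hn
  set ℓ := Real.log n with hℓd
  have h1 := Pool.Agent.Y981.QB.ncard_le_of_lists n
    (fun f => ∃ (i j : ℤ) (m : ℕ), C' * ℓ ^ 2 ≤ m ∧ 3 / 5 * (m : ℝ) ^ 2 < bc i j m f)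
    (fun l => ∃ (i j : ℤ) (m : ℕ), C' * ℓ ^ 2 ≤ m ∧ 3 / 5 * (m : ℝ) ^ 2 < cnt i j m l)
    (mu ^ n * ((2 * n + 1) ^ 2 * Real.exp (-(4 * ℓ) - ℓ ^ 4)))
    (fun f _ hf => by
      obtain ⟨i, j, m, g1, g2⟩ := hf
      refine ⟨i, j, m, g1, ?_⟩
      rw [← bc_eq]; exact g2)
    (lists_bound n _ _ (Real.exp_pos _).le
      (fun b => hK (DD n) (0, 0) b C' ℓ 4 hℓ (by norm_num) hC' hD))
  have h2 := Pool.Agent.Y981.QB.saws_lower n
  rw [← mu_eq] at h2
  refine h1.trans ?_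
  have h3 : (2 * (n : ℝ) + 1) ^ 2 * Real.exp (-(4 * ℓ) - ℓ ^ 4) ≤ Real.exp (-ℓ ^ 4) := by
    calc _ ≤ Real.exp (4 * ℓ) * Real.exp (-(4 * ℓ) - ℓ ^ 4) :=
          mul_le_mul_of_nonneg_right hn2 (Real.exp_pos _).le
      _ = _ := by
        rw [← Real.exp_add]
        congr 1
        ring
  calc mu ^ n * ((2 * (n : ℝ) + 1) ^ 2 * Real.exp (-(4 * ℓ) - ℓ ^ 4))
      ≤ (H978R2.Hex.saws n).ncard * Real.exp (-ℓ ^ 4) :=
        mul_le_mul h2 h3 (by positivity) (Nat.cast_nonneg _)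
    _ = _ := mul_comm _ _

end Pool.Agent.H21.SD
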